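import Pool.Agent.Helper20.BM.Gw

/-!
# BM: the Baire-measurable solution
-/

set_option autoImplicit false

namespace BM

open EB NI

private theorem wgad_open' {d : ℕ} (g : Gd d) :
    IsOpen {x : Om d | ∃ N m, WGad x N m ∧ Sh 0 N (g - m)} := by
  have h : {x : Om d | ∃ N m, WGad x N m ∧ Sh 0 N (g - m)} =
      ⋃ (N : ℕ) (m : Gd d) (_ : Sh 0 N (g - m)), {x : Om d | WGad x N m} := by
    ext x
    simp only [Set.mem_ofPred_eq, Set.mem_iUnion, exists_prop]
    constructor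
    · rintro ⟨N, m, h1, h2⟩
      exact ⟨N, m, h2, h1⟩
    · rintro ⟨N, m, h1, h2⟩
      exact ⟨N, m, h2, h1⟩
  rw [h]
  exact isOpen_iUnion fun N => isOpen_iUnion fun m => isOpen_iUnion fun _ => wgad_open N m

theorem wgad_resid (d : ℕ) :
    {x : FP d | ∀ g, ∃ N m, WGad x.1 N m ∧ Sh 0 N (g - m)} ∈ residual (FP d) := by
  have h1 : {x : FP d | ∀ g, ∃ N m, WGad x.1 N m ∧ Sh 0 N (g - m)} =
      ⋂ g : Gd d, {x : FP d | ∃ N m, WGad x.1 N m ∧ Sh 0 N (g - m)} := by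
    ext x
    simp
  rw [h1, countable_iInter_mem]
  intro g
  refine residual_of_dense_open ((wgad_open' g).preimage continuous_subtype_val) ?_
  have h2 : {x : Om d | ∃ N m, WGad x N m ∧ Sh 0 N (g - m)} ∩ FP d ∈ residual (Om d) :=
    Filter.inter_mem (residual_of_dense_open (wgad_open' g) (wgad_dense g)) (resid_FP d)
  have h3 := dense_of_mem_residual h2
  rw [dense_iff_inter_open]
  rintro V hV ⟨y, hy⟩
  obtain ⟨O, hO, rfl⟩ := isOpen_induced_iff.1 hV
  obtain ⟨x, hxO, hx, hxF⟩ := h3.inter_open_nonempty O hO ⟨y.1, hy⟩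
  exact ⟨⟨x, hxF⟩, hxO, hx⟩

private theorem wgad_sh {d : ℕ} (g : Gd d) (x : Om d) (N : ℕ) (m : Gd d) :
    WGad (sh g x) N m ↔ WGad x N (m + g) := by
  have e : ∀ p : Gd d, sh g x (m + p) = x (m + g + p) := by
    intro p
    unfold sh
    congr 1
    abel
  unfold WGad Gad
  simp only [e]

private theorem inv_cov (d : ℕ) :
    Inv (fshift d) {x : FP d | ∀ g, ∃ N m, WGad x.1 N m ∧ Sh 0 N (g - m)} := by
  intro g x hx h
  obtain ⟨N, m, h1, h2⟩ := hx (h + g)
  refine ⟨N, m - g, ?_, ?_⟩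
  · change WGad (sh g x.1) N (m - g)
    rw [wgad_sh, sub_add_cancel]
    exact h1
  · have e : h - (m - g) = h + g - m := by abel
    rw [e]
    exact h2

theorem baire_sol (d : ℕ) (hd : 2 ≤ d) : BaireSol d lclQ := by
  have hG : ∀ (N : ℕ) (m : Gd d), MeasurableSet {x : FP d | WGad x.1 N m} := fun N m =>
    measurable_subtype_coe (wgad_open N m).measurableSet
  refine ⟨{x : FP d | ∀ g, ∃ N m, WGad x.1 N m ∧ Sh 0 N (g - m)}, ?_, inv_cov d, wgad_resid d, ?_⟩
  · have e : {x : FP d | ∀ g, ∃ N m, WGad x.1 N m ∧ Sh 0 N (g - m)} =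
        ⋂ g : Gd d, ⋃ (N : ℕ), ⋃ (m : Gd d), ({x : FP d | WGad x.1 N m} ∩ {_x | Sh 0 N (g - m)}) := by
      ext x
      simp only [Set.mem_ofPred_eq, Set.mem_iUnion, Set.mem_inter_iff, Set.mem_iInter]
    rw [e]
    exact MeasurableSet.iInter fun g => MeasurableSet.iUnion fun N => MeasurableSet.iUnion fun m =>
      (hG N m).inter (MeasurableSet.const _)
  · refine solQ_of_isl (fshift d) (fun N => {x : FP d | WGad x.1 N 0}) (fun N => hG N 0) _
      (inv_cov d) ?_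
    intro x hx
    have hJ : ∀ N m, Jx (fshift d) (fun N => {x : FP d | WGad x.1 N 0}) x N m ↔ WGad x.1 N m := by
      intro N m
      change WGad (sh m x.1) N 0 ↔ WGad x.1 N m
      rw [wgad_sh, zero_add]
    refine ⟨⟨fun N m N' m' h h' hN => ?_, fun g => ?_⟩, fun N m h => ?_, fun N m N' m' h h' hN => ?_⟩
    · exact gad_nest hd x.1 N N' m m' ((hJ N m).1 h).1 ((hJ N' m').1 h').1 hN
    · obtain ⟨N, m, h1, h2⟩ := hx g
      exact ⟨N, m, (hJ N m).2 h1, h2⟩
    · exact ((hJ N m).1 h).1.1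
    · exact wgad_wide hd x.1 N N' m m' ((hJ N m).1 h) ((hJ N' m').1 h') hN

end BM
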