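import Pool.Agent.Helper20.BM.Mo

/-!
# BM: the labelling of a wide island system satisfies the rules
-/

set_option autoImplicit false

namespace BM

open EB NI

variable {d : ℕ} {J : ℕ → Gd d → Prop}

theorem Un.off {e : Gd d} (he : Un e) {i : Fin d} (hi : e i ≠ 0) {j : Fin d} (hj : j ≠ i) :
    e j = 0 := by
  obtain ⟨k, hk | hk⟩ := he
  · by_cases hik : i = k
    · subst hik
      rw [hk, un_off hj]
    · rw [hk, un_off hik] at hi
      exact absurd rfl hi
  · by_cases hik : i = k
    · subst hik
      rw [hk, Pi.neg_apply, un_off hj, neg_zero]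
    · rw [hk, Pi.neg_apply, un_off hik] at hi
      exact absurd neg_zero hi

theorem mod3_zero {a : ℤ} (h : (a : ZMod 3) = 0) (h1 : -2 ≤ a) (h2 : a ≤ 2) : a = 0 := by
  rw [ZMod.intCast_zmod_eq_zero_iff_dvd] at h
  omega

theorem dd_same {N : ℕ} {i : Fin d} {p e : Gd d} (he : Un e) (hi : e i ≠ 0) :
    Dd N i (p + e) = Dd N i p := by
  refine Finset.sum_congr rfl fun j hj => ?_
  rw [Pi.add_apply, he.off hi (Finset.ne_of_mem_erase hj), add_zero]

theorem dd_step {N : ℕ} {i : Fin d} {p f : Gd d} {t : ℤ} (hf : Un f) (hi : f i = 0)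
    (h1 : t ≤ Dd N i (p + f)) (h2 : t ≤ Dd N i (p - f)) : t + 1 ≤ Dd N i p := by
  -- the case `f = un j`
  have key : ∀ j : Fin d, j ≠ i → t ≤ Dd N i (p + un j) → t ≤ Dd N i (p - un j) →
      t + 1 ≤ Dd N i p := by
    intro j hj h3 h4
    have hmem : j ∈ (Finset.univ : Finset (Fin d)).erase i := Finset.mem_erase.2 ⟨hj, Finset.mem_univ _⟩
    unfold Dd at *
    rw [← Finset.add_sum_erase _ _ hmem] at h3 h4 ⊢
    have e1 : ∑ x ∈ (Finset.univ.erase i).erase j, dlt N ((p + un j) x) =
        ∑ x ∈ (Finset.univ.erase i).erase j, dlt N (p x) := by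
      refine Finset.sum_congr rfl fun x hx => ?_
      rw [Pi.add_apply, un_off (Finset.ne_of_mem_erase hx), add_zero]
    have e2 : ∑ x ∈ (Finset.univ.erase i).erase j, dlt N ((p - un j) x) =
        ∑ x ∈ (Finset.univ.erase i).erase j, dlt N (p x) := by
      refine Finset.sum_congr rfl fun x hx => ?_
      rw [Pi.sub_apply, un_off (Finset.ne_of_mem_erase hx), sub_zero]
    rw [e1, Pi.add_apply, un_self] at h3
    rw [e2, Pi.sub_apply, un_self] at h4
    exact dlt_step _ _ _ h3 h4
  obtain ⟨j, hj | hj⟩ := hf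
  · have hji : j ≠ i := by
      rintro rfl
      rw [hj, un_self] at hi
      exact absurd hi one_ne_zero
    rw [hj] at h1 h2
    exact key j hji h1 h2
  · have hji : j ≠ i := by
      rintro rfl
      rw [hj, Pi.neg_apply, un_self] at hi
      omega
    rw [hj] at h1 h2
    rw [sub_neg_eq_add] at h2
    rw [← sub_eq_add_neg] at h1
    exact key j hji h2 h1

theorem sub_abs {e : Gd d} (he : Un e) (g : Gd d) (i : Fin d) : |g i - (g - e) i| ≤ 1 := by
  have := he.bd i
  rw [abs_le, Pi.sub_apply]
  constructor <;> omega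

theorem WIsl.confQ (hJ : WIsl J) (y : Gd d → LabQ) (h1 : ∀ g, IsLab J g (y g).1)
    (h2 : ∀ g, IsQ J g (y g).2) : ConfQ y := by
  refine ⟨hJ.isl.lab_conf _ h1, fun g e he a1 a2 => ?_, fun g e f k he hf a1 a2 a3 a4 => ?_⟩
  · obtain ⟨N, m, b1, b2, b3⟩ := exit_edge hJ h1 he a1 a2
    have eg : g + e - m = g - m + e := by abel
    rw [eg] at b3
    obtain ⟨i, -, b4⟩ := exit_moat he b2 b3
    rw [← eg] at b4
    constructor
    · rcases h2 g with ⟨N', m', t', c1, c2, -⟩ | ⟨-, c3⟩
      · exfalso
        obtain ⟨rfl, rfl⟩ := hJ.same c1 b1 c2 b4 (un_abs he g)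
        exact c2.out b2
      · exact c3
    · have := hJ.q_eq (h2 (g + e)) b1 b4
      rw [this, Int.cast_zero]
  · obtain ⟨N, m, t, b1, b2, b3⟩ := (h2 g).some_iff a1
    have hN : 2 ≤ N := by
      have := hJ.big _ _ b1
      omega
    -- the two neighbours in the direction `f`
    obtain ⟨N1, m1, t1, c1, c2, c3⟩ := (h2 (g + f)).some_iff a2
    obtain ⟨rfl, rfl⟩ := hJ.same b1 c1 b2 c2 (un_abs hf g)
    obtain ⟨N2, m2, t2, d1, d2, d3⟩ := (h2 (g - f)).some_iff a3
    obtain ⟨rfl, rfl⟩ := hJ.same b1 d1 b2 d2 (sub_abs hf g)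
    have e1 : g + f - m = g - m + f := by abel
    have e2 : g - f - m = g - m + -f := by abel
    rw [e1] at c2
    rw [e2] at d2
    obtain ⟨i, r1, r2, r3, r4, r5⟩ := b2.adj c2 hf hN
    obtain ⟨i', s1, s2, s3, s4, s5⟩ := b2.adj d2 hf.neg hN
    have hii : i' = i := by
      by_contra hc
      have := r2 i' hc
      have h0 := b2.1
      omega
    subst hii
    have hfb := hf.bd i'
    have h0 := b2.1
    rw [Pi.neg_apply] at s1
    -- `f` is not along the axis
    have hf0 : f i' = 0 := by
      have u1 : ((t - t1 : ℤ) : ZMod 3) = 0 := by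
        rw [Int.cast_sub, ← b3, ← c3, sub_self]
      have := mod3_zero u1 (by omega) (by omega)
      omega
    have ht1 : t1 = t := by omega
    have ht2 : t2 = t := by omega
    rw [ht1] at r5
    rw [ht2, ← sub_eq_add_neg] at s5
    have hstep : t + 1 ≤ Dd N i' (g - m) := dd_step hf hf0 r5 s5
    -- `e` points outwards
    have hout : ((g - m) i' = -1 - t ∧ e i' = -1) ∨ ((g - m) i' = N + t ∧ e i' = 1) := by
      have heb := he.bd i'
      rcases a4 with ⟨k0, l1, l2⟩ | l1
      · obtain ⟨N3, m3, v1, v2, v3⟩ := exit_edge (g := g - e) hJ h1 he l1 (by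
          rw [sub_add_cancel]
          exact l2)
        have e3 : g - e + e - m3 = g - e - m3 + e := by abel
        rw [e3] at v3
        obtain ⟨i3, w1, w2⟩ := exit_moat he v2 v3
        have e4 : g - e - m3 + e = g - m3 := by abel
        rw [e4] at w1 w2
        obtain ⟨rfl, rfl⟩ := hJ.same b1 v1 b2 w2 (fun i => by rw [sub_self]; simp)
        have ht0 := moat_t_uniq hN b2 w2
        have hi3 : i3 = i' := by
          by_contra hc
          have := r2 i3 hc
          omega
        subst hi3
        have e5 : (g - e - m) i3 = (g - m) i3 - e i3 := by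
          simp only [Pi.sub_apply]
          ring
        rw [e5] at w1
        omega
      · obtain ⟨N3, m3, t3, v1, v2, v3⟩ := (h2 (g - e)).some_iff l1
        obtain ⟨rfl, rfl⟩ := hJ.same b1 v1 b2 v2 (sub_abs he g)
        have e3 : g - e - m = g - m + -e := by abel
        rw [e3] at v2
        obtain ⟨i3, w1, w2, -, -, -⟩ := b2.adj v2 he.neg hN
        have hi3 : i3 = i' := by
          by_contra hc
          have := r2 i3 hc
          omega
        subst hi3
        rw [Pi.neg_apply] at w1
        have u1 : ((t - 1 - t3 : ℤ) : ZMod 3) = 0 := by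
          rw [Int.cast_sub, ← v3, Int.cast_sub, ← b3, Int.cast_one, sub_self]
        have := mod3_zero u1 (by omega) (by omega)
        omega
    have hei : e i' ≠ 0 := by omega
    have hmo : Moat N (g + e - m) (t + 1) := by
      have e3 : g + e - m = g - m + e := by abel
      rw [e3]
      refine ⟨by omega, i', ?_, fun j hj => ?_, ?_⟩
      · rw [Pi.add_apply]
        omega
      · rw [Pi.add_apply, he.off hei hj, add_zero]
        exact r2 j hj
      · rw [dd_same he hei]
        exact hstep
    have := hJ.q_eq (h2 (g + e)) b1 hmo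
    rw [this, b3]
    push_cast
    rfl

end BM
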