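import Pool.Agent.Helper20.BM.Defs
import Pool.Agent.Helper24.NI.Dec
import Pool.Agent.Helper33.NI.GridB

/-!
# BM: the LCL problem on the grid
-/

set_option autoImplicit false

namespace BM

open EB NI

theorem Un.neg {d : ℕ} {e : Gd d} (h : Un e) : Un (-e) := by
  obtain ⟨i, h | h⟩ := h
  · exact ⟨i, Or.inr (by rw [h])⟩
  · exact ⟨i, Or.inl (by rw [h, neg_neg])⟩

theorem un_self {d : ℕ} (i : Fin d) : (un i : Gd d) i = 1 := by simp [un]

theorem un_off {d : ℕ} {i k : Fin d} (h : k ≠ i) : (un i : Gd d) k = 0 := by simp [un, h]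

theorem Un.ne_zero {d : ℕ} {e : Gd d} (h : Un e) : e ≠ 0 := by
  obtain ⟨i, h | h⟩ := h
  · intro e0
    have := congrFun e0 i
    rw [h, un_self] at this
    simp at this
  · intro e0
    have := congrFun e0 i
    rw [h, Pi.neg_apply, un_self] at this
    simp at this

theorem adj_iff_un {d : ℕ} (g h : Gd d) : (grid d).Adj g h ↔ Un (h - g) := by
  rw [adj_grid]
  constructor
  · rintro ⟨-, ⟨i, hi⟩ | ⟨i, hi⟩⟩
    · exact ⟨i, Or.inl (by rw [hi]; unfold un; abel)⟩
    · exact ⟨i, Or.inr (by rw [hi]; unfold un; abel)⟩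
  · intro h1
    have h2 := h1.ne_zero
    obtain ⟨i, hi | hi⟩ := h1
    · refine ⟨fun e => h2 (by rw [e, sub_self]), Or.inl ⟨i, ?_⟩⟩
      rw [sub_eq_iff_eq_add] at hi
      rw [hi, add_comm]
      rfl
    · refine ⟨fun e => h2 (by rw [e, sub_self]), Or.inr ⟨i, ?_⟩⟩
      rw [sub_eq_iff_eq_add] at hi
      rw [hi]
      unfold un
      abel

theorem adj_zero {d : ℕ} (e : Gd d) : (grid d).Adj 0 e ↔ Un e := by
  rw [adj_iff_un, sub_zero]

theorem mem_ball_un {d : ℕ} {e : Gd d} (h : Un e) : e ∈ ball (grid d) 2 (0 : Gd d) :=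
  ⟨SimpleGraph.Walk.cons ((adj_zero e).2 h) SimpleGraph.Walk.nil, by simp⟩

theorem mem_ball_two {d : ℕ} {e f : Gd d} (h : Un e) (h' : Un f) :
    e + f ∈ ball (grid d) 2 (0 : Gd d) :=
  ⟨SimpleGraph.Walk.cons ((adj_zero e).2 h) (SimpleGraph.Walk.cons
    ((adj_iff_un e (e + f)).2 (by rwa [add_sub_cancel_left])) SimpleGraph.Walk.nil), by simp⟩

theorem Un.bd {d : ℕ} {e : Gd d} (h : Un e) (i : Fin d) : -1 ≤ e i ∧ e i ≤ 1 := by
  obtain ⟨j, h | h⟩ := h
  · rw [h]
    by_cases hij : i = j
    · rw [hij, un_self]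
      omega
    · rw [un_off hij]
      omega
  · rw [h, Pi.neg_apply]
    by_cases hij : i = j
    · rw [hij, un_self]
      omega
    · rw [un_off hij]
      omega

/-- a unit vector is determined by a nonzero coordinate -/
theorem Un.eq_of {d : ℕ} {e f : Gd d} (h : Un e) (h' : Un f) {i : Fin d} (h1 : e i = f i)
    (h2 : e i ≠ 0) : e = f := by
  have key : ∀ {e : Gd d}, Un e → ∀ {i : Fin d}, e i ≠ 0 → e = e i • un i := by
    intro e h i h2
    obtain ⟨j, h | h⟩ := h
    · have hij : i = j := by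
        by_contra hc
        exact h2 (by rw [h, un_off hc])
      subst hij
      rw [h, un_self, one_smul]
    · have hij : i = j := by
        by_contra hc
        exact h2 (by rw [h, Pi.neg_apply, un_off hc, neg_zero])
      subst hij
      rw [h, Pi.neg_apply, un_self, neg_smul, one_smul]
  rw [key h h2, key h' (by rw [← h1]; exact h2), h1]

/-- The opposite neighbours of the root of a ball of the grid. -/
theorem opp_iff {d : ℕ} (l : ball (grid d) 2 (0 : Gd d) → LabQ) (u w : ball (grid d) 2 (0 : Gd d))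
    (hu : Un u.1) (hw : Un w.1) :
    Opp (ballRG (grid d) 2 0 l) u w ↔ w.1 = -u.1 := by
  constructor
  · rintro ⟨h1, h2⟩
    by_contra hc
    have h3 := h2 ⟨u.1 + w.1, mem_ball_two hu hw⟩
      (show (grid d).Adj u.1 (u.1 + w.1) from by rw [adj_iff_un, add_sub_cancel_left]; exact hw)
      (show (grid d).Adj w.1 (u.1 + w.1) from by rw [adj_iff_un, add_sub_cancel_right]; exact hu)
    have h4 : u.1 + w.1 = 0 := congrArg Subtype.val h3
    exact hc (eq_neg_of_add_eq_zero_right h4)
  · intro h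
    obtain ⟨i, hi⟩ : ∃ i, u.1 i ≠ 0 := by
      by_contra hc
      push Not at hc
      exact hu.ne_zero (funext hc)
    refine ⟨fun e => ?_, fun z hz1 hz2 => ?_⟩
    · rw [← e] at h
      have := congrFun h i
      rw [Pi.neg_apply] at this
      omega
    · have a1 : Un (z.1 - u.1) := by
        rw [← adj_iff_un]
        exact hz1
      have a2 : Un (z.1 - w.1) := by
        rw [← adj_iff_un]
        exact hz2
      rw [h] at a2
      have b1 := a1.bd i
      have b2 := a2.bd i
      have b3 := hu.bd i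
      simp only [Pi.sub_apply, Pi.neg_apply] at b1 b2
      have h5 : (z.1 - u.1) i = (-u.1) i := by
        simp only [Pi.sub_apply, Pi.neg_apply]
        omega
      have h6 := a1.eq_of hu.neg h5 (by rw [h5, Pi.neg_apply]; omega)
      apply Subtype.ext
      show z.1 = 0
      have : z.1 = (z.1 - u.1) + u.1 := by abel
      rw [this, h6, neg_add_cancel]

theorem confQ_of_allowed {d : ℕ} (y : Gd d → LabQ)
    (h : ∀ g, Allowed d lclQ fun b => y (b.1 + g)) : ConfQ y := by
  refine ⟨conf_of_allowed _ fun g => (h g).1, ?_, ?_⟩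
  · intro g e he h1 h2
    have h3 := (h g).2.1 ⟨e, mem_ball_un he⟩ ((adj_zero e).2 he)
      (by
        show (y (0 + g)).1.1 = 2
        rw [zero_add]
        exact h1)
      (by
        show (y (e + g)).1.1 = 0
        rw [add_comm]
        exact h2)
    change (y (0 + g)).2 = none ∧ (y (e + g)).2 = some 0 at h3
    rwa [zero_add, add_comm] at h3
  · intro g e f k he hf h1 h2 h3 h4
    have h5 := (h g).2.2 ⟨-e, mem_ball_un he.neg⟩ ⟨e, mem_ball_un he⟩ ⟨f, mem_ball_un hf⟩
      ⟨-f, mem_ball_un hf.neg⟩ ((adj_zero _).2 he.neg) ((adj_zero _).2 he) ((adj_zero _).2 hf)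
      ((adj_zero _).2 hf.neg) ((opp_iff _ _ _ he.neg he).2 (neg_neg e).symm)
      ((opp_iff _ _ _ hf hf.neg).2 rfl) k
      (by
        show (y (0 + g)).2 = some k
        rw [zero_add]
        exact h1)
      (by
        show (y (f + g)).2 = some k
        rw [add_comm]
        exact h2)
      (by
        show (y (-f + g)).2 = some k
        rw [neg_add_eq_sub]
        exact h3)
      (by
        show Pre k (y (-e + g)) (y (0 + g))
        rw [zero_add, neg_add_eq_sub]
        exact h4)
    change (y (e + g)).2 = some (k + 1) at h5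
    rwa [add_comm] at h5

theorem allowed_of_confQ {d : ℕ} (y : Gd d → LabQ) (h : ConfQ y) :
    Allowed d lclQ fun b => y b.1 := by
  refine ⟨allowed_of_conf _ h.conf, ?_, ?_⟩
  · rintro ⟨u, hu⟩ hadj h1 h2
    have hU : Un u := (adj_zero u).1 hadj
    have := h.m1 0 u hU h1 (by rw [zero_add]; exact h2)
    rw [zero_add] at this
    exact this
  · intro u w p p' a1 a2 a3 a4 a5 a6 k a7 a8 a9 a10
    have b1 : Un u.1 := (adj_zero _).1 a1
    have b2 : Un w.1 := (adj_zero _).1 a2
    have b3 : Un p.1 := (adj_zero _).1 a3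
    have b4 : Un p'.1 := (adj_zero _).1 a4
    have c1 := (opp_iff _ u w b1 b2).1 a5
    have c2 := (opp_iff _ p p' b3 b4).1 a6
    have h1 := h.m2 0 w.1 p.1 k b2 b3 a7
      (by rw [zero_add]; exact a8)
      (by rw [zero_sub, ← c2]; exact a9)
      (by
        rw [zero_sub, c1, neg_neg]
        exact a10)
    rw [zero_add] at h1
    exact h1

theorem confQ_shift {d : ℕ} (y : Gd d → LabQ) (h : ConfQ y) (v : Gd d) :
    ConfQ fun g => y (v + g) := by
  refine ⟨conf_shift _ h.conf v, fun g e he h1 h2 => ?_, fun g e f k he hf h1 h2 h3 h4 => ?_⟩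
  · rw [← add_assoc] at h2 ⊢
    exact h.m1 (v + g) e he h1 h2
  · rw [← add_assoc] at h2 ⊢
    rw [← add_sub_assoc] at h3 h4
    exact h.m2 (v + g) e f k he hf h1 h2 h3 h4

end BM
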