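import Pool.Agent.Helper33.NI.Defs

/-!
# Project BM (MP_eb515b_lc): an LCL problem which is easy generically and hard for measures

Labels `(l, b, q)`: `(l, b)` is a label of the problem NI (nested boxes, `l` is the class mod 3 of a height function whose sublevel sets
have components which are boxes, `b` is a parity), and `q : Option (ZMod 3)` marks a moat.  An exit edge is an edge from `l = 2` to `l = 0`.
* the inner end of an exit edge has `q = none`, the outer end has `q = some 0`;
* let `u, w` and `p, p'` be two pairs of opposite neighbours of `v`.  If `q v = q p = q p' = some k` and `q u = some (k - 1)`, or `k = 0` and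
  `(u, v)` is an exit edge, then `q w = some (k + 1)`.

So each box of a level `≡ 2` carries a pyramid over each of its faces.
-/

set_option autoImplicit false

namespace BM

open EB NI

/-- the labels -/
abbrev LabQ : Type := Lab × Option (ZMod 3)

/-- `u` and `w` are opposite neighbours of the root -/
def Opp {S : Type} (A : RG S) (u w : A.V) : Prop :=
  u ≠ w ∧ ∀ z, A.graph.Adj u z → A.graph.Adj w z → z = A.root

/-- the rule for the next moat label -/
def Pre (k : ZMod 3) (u v : LabQ) : Prop := (k = 0 ∧ u.1.1 = 2 ∧ v.1.1 = 0) ∨ u.2 = some (k - 1)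

/-- forget the moat labels -/
def forget (A : RG LabQ) : RG Lab := ⟨A.V, A.graph, A.root, fun v => (A.lab v).1⟩

/-- The LCL problem (radius `2`). -/
def lclQ : LCL LabQ where
  r := 2
  P A := lcl.P (forget A) ∧
    (∀ u, A.graph.Adj A.root u → (A.lab A.root).1.1 = 2 → (A.lab u).1.1 = 0 →
      (A.lab A.root).2 = none ∧ (A.lab u).2 = some 0) ∧
    ∀ u w p p', A.graph.Adj A.root u → A.graph.Adj A.root w → A.graph.Adj A.root p →
      A.graph.Adj A.root p' → Opp A u w → Opp A p p' → ∀ k : ZMod 3, (A.lab A.root).2 = some k →
      (A.lab p).2 = some k → (A.lab p').2 = some k → Pre k (A.lab u) (A.lab A.root) →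
      (A.lab w).2 = some (k + 1)
  iso := by
    rintro A B ⟨e, he, hl⟩ ⟨h0, h1, h2⟩
    have hs : ∀ b, A.lab (e.symm b) = B.lab b := fun b => by
      rw [← hl (e.symm b), RelIso.apply_symm_apply]
    have hr : e.symm B.root = A.root := by
      rw [← he, RelIso.symm_apply_apply]
    have ha : ∀ b c, B.graph.Adj b c → A.graph.Adj (e.symm b) (e.symm c) := fun b c h =>
      e.symm.map_adj_iff.2 h
    have har : ∀ b, B.graph.Adj B.root b → A.graph.Adj A.root (e.symm b) := fun b h => by
      rw [← hr]
      exact ha _ _ h
    have hlr : A.lab A.root = B.lab B.root := by rw [← hr, hs]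
    have ho : ∀ u w, Opp B u w → Opp A (e.symm u) (e.symm w) := by
      rintro u w ⟨h3, h4⟩
      refine ⟨fun h => h3 (e.symm.injective h), fun z hz1 hz2 => ?_⟩
      have h5 := h4 (e z)
        (by
          have := e.map_adj_iff.2 hz1
          rwa [RelIso.apply_symm_apply] at this)
        (by
          have := e.map_adj_iff.2 hz2
          rwa [RelIso.apply_symm_apply] at this)
      rw [← he] at h5
      exact e.injective h5
    refine ⟨lcl.iso _ _ ⟨e, he, fun v => ?_⟩ h0, fun u hu a1 a2 => ?_,
      fun u w p p' a1 a2 a3 a4 a5 a6 k a7 a8 a9 a10 => ?_⟩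
    · exact congrArg Prod.fst (hl v)
    · have := h1 (e.symm u) (har u hu) (by rw [hlr]; exact a1) (by rw [hs]; exact a2)
      rwa [hlr, hs] at this
    · have := h2 (e.symm u) (e.symm w) (e.symm p) (e.symm p') (har u a1) (har w a2) (har p a3)
        (har p' a4) (ho _ _ a5) (ho _ _ a6) k (by rw [hlr]; exact a7) (by rw [hs]; exact a8)
        (by rw [hs]; exact a9) (by rw [hs, hlr]; exact a10)
      rwa [hs] at this

/-- a unit vector or its negative -/
def Un {d : ℕ} (e : Gd d) : Prop := ∃ i, e = un i ∨ e = -un i

/-- A configuration on the grid with all rules. -/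
structure ConfQ {d : ℕ} (y : Gd d → LabQ) : Prop where
  conf : Conf fun g => (y g).1
  m1 : ∀ g e, Un e → (y g).1.1 = 2 → (y (g + e)).1.1 = 0 → (y g).2 = none ∧ (y (g + e)).2 = some 0
  m2 : ∀ g e f (k : ZMod 3), Un e → Un f → (y g).2 = some k → (y (g + f)).2 = some k →
    (y (g - f)).2 = some k → Pre k (y (g - e)) (y g) → (y (g + e)).2 = some (k + 1)

end BM
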