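import Pool.Agent.Helper20.BM.Me
import Pool.Agent.Helper24.NI.NoConf

/-!
# BM: no solution for an invariant measure for which each `2 e_i` is ergodic, end of the proof
-/

set_option autoImplicit false

namespace BM

open EB NI NIC MeasureTheory

variable {d : ℕ} {μ : Measure (Om d)}

theorem Un.smul {e : Gd d} (he : Un e) {s : ℤ} (hs : Sg s) : Un (s • e) := by
  rcases hs with hs | hs <;> subst hs
  · rwa [one_smul]
  · rw [neg_smul, one_smul]
    exact he.neg

theorem qh_of_gc {y : Gd d → LabQ} (hy : GC y) {e f : Gd d} (he : Un e) (hf : Un f) :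
    QH (fun u v => (y (u • e + v • f)).1.1) fun u v => (y (u • e + v • f)).2 := by
  refine ⟨fun u v s hs h1 h2 => ?_, fun u v s k hs h1 h2 h3 h4 => ?_, fun u v s t r hs ht h1 => ?_,
    fun u v s hs => ?_⟩
  · have e1 : (u + s) • e + v • f = u • e + v • f + s • e := by module
    rw [e1] at h2 ⊢
    exact hy.conf.m1 _ _ (he.smul hs) h1 h2
  · have e1 : (u + s) • e + v • f = u • e + v • f + s • e := by module
    have e2 : (u - s) • e + v • f = u • e + v • f - s • e := by module
    have e3 : u • e + (v + 1) • f = u • e + v • f + f := by module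
    have e4 : u • e + (v - 1) • f = u • e + v • f - f := by module
    rw [e1]
    rw [e3] at h2
    rw [e4] at h3
    rw [e2] at h4
    exact hy.conf.m2 _ _ _ k (he.smul hs) hf h1 h2 h3 h4
  · refine hy.fin (u • e + v • f) (s • e) (t • f) r (he.smul hs) (hf.smul ht) fun k => ?_
    have h2 := h1 k
    have e1 : u • e + (v + t * k) • f = u • e + v • f + (k : ℤ) • t • f := by module
    have e2 : (u + s) • e + (v + t * k) • f = u • e + v • f + (k : ℤ) • t • f + s • e := by module
    rw [e1, e2] at h2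
    exact h2
  · obtain ⟨K, hK⟩ := hy.run (u • e + v • f) (s • e) (he.smul hs)
    refine ⟨K, fun k hk h => hK k hk ?_⟩
    obtain ⟨a1, a2, a3, a4⟩ := h
    dsimp only at a1 a2 a3 a4
    have e1 : (u + s * k) • e + v • f = u • e + v • f + (k : ℤ) • s • e := by module
    have e2 : (u + s * (k + 1)) • e + v • f = u • e + v • f + (k : ℤ) • s • e + s • e := by module
    rw [e1] at a1 a3
    rw [e2] at a2
    refine ⟨a1, a2, a3, fun i hi => ?_⟩
    have e3 : (u + s * (k + 1 + i)) • e + v • f =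
        u • e + v • f + (k : ℤ) • s • e + (1 + i : ℤ) • s • e := by module
    have := a4 i hi
    rw [e3] at this
    exact this

theorem qc_of_gc {y : Gd d → LabQ} (hy : GC y) {i j : Fin d} (hij : i ≠ j) :
    QC (fun u v => (y (u • un i + v • un j)).1.1) (fun u v => (y (u • un i + v • un j)).1.2)
      fun u v => (y (u • un i + v • un j)).2 := by
  have ei : Un (un i : Gd d) := ⟨i, Or.inl rfl⟩
  have ej : Un (un j : Gd d) := ⟨j, Or.inl rfl⟩
  have px : ∀ u v : ℤ, ((u + 1) • un i + v • un j : Gd d) = u • un i + v • un j + un i :=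
    fun u v => by module
  have py : ∀ u v : ℤ, (u • un i + (v + 1) • un j : Gd d) = u • un i + v • un j + un j :=
    fun u v => by module
  refine ⟨⟨fun u v => ?_, fun u v h => ?_, fun u v h => ?_⟩, qh_of_gc hy ei ej, ?_⟩
  · have h1 := hy.conf.conf.quad (u • un i + v • un j) i j hij
    rw [quad_iff_face] at h1
    simp only [px, py]
    rw [add_right_comm _ (un i) (un j)] at h1
    exact h1
  · have h1 := hy.conf.conf.edge (u • un i + v • un j) i
    simp only [px] at h ⊢
    exact (h1 h.symm).symm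
  · have h1 := hy.conf.conf.edge (u • un i + v • un j) j
    simp only [py] at h ⊢
    exact (h1 h.symm).symm
  · have h1 := qh_of_gc hy ej ei
    have e1 : (fun u v : ℤ => (y (u • un j + v • un i)).1.1) =
        fun u v => (y (v • un i + u • un j)).1.1 := by
      funext u v
      rw [add_comm]
    have e2 : (fun u v : ℤ => (y (u • un j + v • un i)).2) =
        fun u v => (y (v • un i + u • un j)).2 := by
      funext u v
      rw [add_comm]
    rw [e1, e2] at h1
    exact h1

/-- the point `x` is in the top level -/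
def TopX (F : Om d → LabQ) (e : Gd d) (x : Om d) : Prop :=
  ∀ p : ℕ, ∑ i ∈ Finset.range p, dl ((F (sh (((i : ℤ) + 1) • e) x)).1.1 -
    (F (sh ((i : ℤ) • e) x)).1.1) ≤ 0

theorem topX_meas {F : Om d → LabQ} (hF : Ms F) (e : Gd d) : MeasurableSet {x | TopX F e x} := by
  have h1 : {x | TopX F e x} = ⋂ p : ℕ, {x | ∑ i ∈ Finset.range p,
      dl ((F (sh (((i : ℤ) + 1) • e) x)).1.1 - (F (sh ((i : ℤ) • e) x)).1.1) ∈ {z : ℤ | z ≤ 0}} := by
    ext x
    simp [TopX]
  rw [h1]
  refine MeasurableSet.iInter fun p => Ms.set (Ms.sum _ fun i _ => ?_) _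
  exact (ms_l hF _).map2 (ms_l hF _) fun a b => dl (a - b)

theorem topR_iff {F : Om d → LabQ} (e f : Gd d) (x : Om d) (n : ℕ) :
    TopR (fun u v => (F (sh (u • e + v • f) x)).1.1) n 0 ↔ TopX F e (sh ((n : ℤ) • e) x) := by
  unfold TopR TopX
  refine forall_congr' fun p => ?_
  have h1 : ∀ i : ℕ, (((n : ℤ) + i + 1) • e + (0 : ℤ) • f) = ((i : ℤ) + 1) • e + (n : ℤ) • e :=
    fun i => by module
  have h2 : ∀ i : ℕ, (((n : ℤ) + i) • e + (0 : ℤ) • f) = (i : ℤ) • e + (n : ℤ) • e :=
    fun i => by module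
  simp only [h1, h2, sh_add]

theorem no_sol [IsProbabilityMeasure μ] (h : Erg2 μ) (hd : 2 ≤ d) {F : Om d → LabQ} (hF : Ms F)
    (hc : ∀ᵐ x ∂μ, ConfQ fun g => F (sh g x)) : False := by
  classical
  obtain ⟨i, j, hij⟩ : ∃ i j : Fin d, i ≠ j := by
    refine ⟨⟨0, by omega⟩, ⟨1, by omega⟩, fun e => ?_⟩
    have := congrArg Fin.val e
    simp at this
  obtain ⟨e, he⟩ : ∃ e : Gd d, e = un i := ⟨_, rfl⟩
  have hg := ae_gc hF h hc
  -- the set
  obtain ⟨E, hE⟩ : ∃ E : Set (Om d), E = {x | ∃ n : ℕ, TopX F e (sh ((n : ℤ) • e) x) ∧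
      ((F (sh ((n : ℤ) • e) x)).1.2 ^^ par n) = true} := ⟨_, rfl⟩
  have hEm : MeasurableSet E := by
    have h1 : E = ⋃ n : ℕ, ({x | TopX F e (sh ((n : ℤ) • e) x)} ∩
        {x | (F (sh ((n : ℤ) • e) x)).1.2 ∈ {b | (b ^^ par n) = true}}) := by
      rw [hE]
      ext x
      simp
    rw [h1]
    refine MeasurableSet.iUnion fun n => MeasurableSet.inter ?_ ((ms_b hF _).set _)
    exact (sh_meas _) (topX_meas hF e)
  have key : ∀ x, GC (fun g => F (sh g x)) → (∃ n : ℕ, TopX F e (sh ((n : ℤ) • e) x)) ∧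
      ∀ n n' : ℕ, TopX F e (sh ((n : ℤ) • e) x) → TopX F e (sh ((n' : ℤ) • e) x) →
      ((F (sh ((n : ℤ) • e) x)).1.2 ^^ par n) = ((F (sh ((n' : ℤ) • e) x)).1.2 ^^ par n') := by
    intro x hx
    have h1 := plane_phase (qc_of_gc hx hij)
    simp only [← he] at h1
    obtain ⟨h2, h3⟩ := h1
    constructor
    · obtain ⟨n, hn⟩ := h2
      exact ⟨n, (topR_iff e (un j) x n).1 hn⟩
    · intro n n' h4 h5
      have h6 := h3 n n' ((topR_iff e (un j) x n).2 h4) ((topR_iff e (un j) x n').2 h5)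
      rw [zero_smul, add_zero, add_zero] at h6
      exact h6
  have hflip : ∀ᵐ x ∂μ, (sh e x ∈ E ↔ x ∉ E) := by
    filter_upwards [hg, h.ae e hg] with x h1 h2
    obtain ⟨-, b1⟩ := key x h1
    obtain ⟨⟨n, a2⟩, b2⟩ := key _ h2
    have e1 : ∀ n : ℕ, sh ((n : ℤ) • e) (sh e x) = sh (((n + 1 : ℕ) : ℤ) • e) x := by
      intro n
      rw [← sh_add]
      congr 1
      push_cast
      module
    have c1 : sh e x ∈ E ↔ ((F (sh ((n : ℤ) • e) (sh e x))).1.2 ^^ par n) = true := by
      rw [hE]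
      constructor
      · rintro ⟨m, hm1, hm2⟩
        rw [← b2 m n hm1 a2]
        exact hm2
      · intro h3
        exact ⟨n, a2, h3⟩
    have c2 : x ∈ E ↔ ((F (sh (((n + 1 : ℕ) : ℤ) • e) x)).1.2 ^^ par ((n + 1 : ℕ) : ℤ)) = true := by
      rw [hE]
      rw [e1] at a2
      constructor
      · rintro ⟨m, hm1, hm2⟩
        rw [← b1 m (n + 1) hm1 a2]
        exact hm2
      · intro h3
        exact ⟨n + 1, a2, h3⟩
    rw [c1, c2, e1]
    have e2 : par ((n + 1 : ℕ) : ℤ) = !par n := by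
      rw [← par_succ]
      push_cast
      rfl
    rw [e2]
    cases (F (sh (((n + 1 : ℕ) : ℤ) • e) x)).1.2 <;> cases par (n : ℤ) <;> simp
  have htwo : ∀ᵐ x ∂μ, x ∈ E → sh ((2 : ℤ) • un i) x ∈ E := by
    filter_upwards [hflip, h.ae e hflip] with x h1 h2 h3
    rw [← he, two_smul, sh_add, h2, h1]
    exact fun h4 => h4 h3
  rcases h.two i hEm htwo with h1 | h1
  · apply ae_false (μ := μ)
    filter_upwards [h1, h.ae e h1, hflip] with x h2 h3 h4
    exact h4.1 h3 h2
  · apply ae_false (μ := μ)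
    filter_upwards [h1, h.ae e h1, hflip] with x h2 h3 h4
    exact h3 (h4.2 h2)

end BM
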