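import Pool.Agent.Helper20.BM.Ba
import Pool.Agent.Helper20.BM.No
import Pool.Agent.Helper27.EB.Final

/-!
# BM: the theorem
-/

set_option autoImplicit false

namespace BM

open EB NI MeasureTheory

/-- A Borel solution on an invariant Borel set `C` of the free part which is conull for the measure `μ` on `2^(Z^d)`. -/
def SolFor {S : Type} (d : ℕ) (μ : Measure (Om d)) (L : LCL S) : Prop :=
  ∃ C, MeasurableSet C ∧ Inv (fshift d) C ∧ μ (Subtype.val '' C)ᶜ = 0 ∧ BorelSolOn (fshift d) L C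

theorem ext_sol {d : ℕ} {S : Type} (s0 : S) (L : LCL S) (C : Set (FP d)) (hCm : MeasurableSet C)
    (hCi : Inv (fshift d) C) (hS : BorelSolOn (fshift d) L C) :
    ∃ φ : Om d → S, Ms φ ∧ ∀ x ∈ Subtype.val '' C, Allowed d L fun b => φ (sh b.1 x) := by
  classical
  obtain ⟨f, hf, hsol⟩ := hS
  rw [sol_iff (fshift d) L C hCi f] at hsol
  obtain ⟨φ, hφ⟩ : ∃ φ : Om d → S, φ = fun x =>
      if h : ∃ hx : x ∈ FP d, (⟨x, hx⟩ : FP d) ∈ C then f ⟨⟨x, h.1⟩, h.2⟩ else s0 := ⟨_, rfl⟩
  have hφ1 : ∀ y : C, φ y.1.1 = f y := by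
    intro y
    rw [hφ]
    exact dif_pos ⟨y.1.2, y.2⟩
  have hφ0 : ∀ x, x ∉ Subtype.val '' C → φ x = s0 := by
    intro x hx
    rw [hφ]
    refine dif_neg ?_
    rintro ⟨h1, h2⟩
    exact hx ⟨⟨x, h1⟩, h2, rfl⟩
  have hCm' : MeasurableSet (Subtype.val '' C : Set (Om d)) := (FP_meas d).subtype_image hCm
  refine ⟨φ, ?_, ?_⟩
  · intro s
    have h1 : {x | φ x = s} = (Subtype.val '' (Subtype.val '' {y : C | f y = s})) ∪
        ((Subtype.val '' C)ᶜ ∩ {_x : Om d | s0 = s}) := by
      ext x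
      simp only [Set.mem_union, Set.mem_inter_iff, Set.mem_compl_iff, Set.mem_ofPred_eq]
      constructor
      · intro hx
        by_cases h : x ∈ Subtype.val '' C
        · left
          obtain ⟨y, hy, rfl⟩ := h
          refine ⟨y, ⟨⟨y, hy⟩, ?_, rfl⟩, rfl⟩
          have := hφ1 ⟨y, hy⟩
          exact this.symm.trans hx
        · right
          exact ⟨h, (hφ0 x h).symm.trans hx⟩
      · rintro (⟨_, ⟨y, hy, rfl⟩, rfl⟩ | ⟨h, h0⟩)
        · exact (hφ1 y).trans hy
        · rw [hφ0 x h]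
          exact h0
    rw [h1]
    refine ((FP_meas d).subtype_image (hCm.subtype_image (hf s))).union (hCm'.compl.inter ?_)
    exact MeasurableSet.const _
  · rintro _ ⟨y, hy, rfl⟩
    have h1 := hsol ⟨y, hy⟩
    have h2 : (fun b : ball (grid d) L.r 0 => φ (sh b.1 y.1)) =
        fun b : ball (grid d) L.r 0 => f ⟨(fshift d).T b.1 y, hCi b.1 y hy⟩ := by
      funext b
      exact hφ1 ⟨(fshift d).T b.1 y, hCi b.1 y hy⟩
    rw [h2]
    exact h1

/-- No solution almost everywhere for an invariant measure for which each `2 e_i` is ergodic. -/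
theorem no_solFor {d : ℕ} (hd : 2 ≤ d) (μ : Measure (Om d)) [IsProbabilityMeasure μ] (h : Erg2 μ) :
    ¬ SolFor d μ lclQ := by
  rintro ⟨C, hC, hCi, hC0, hS⟩
  obtain ⟨F, hF, hA⟩ := ext_sol (((0, false), none) : LabQ) lclQ C hC hCi hS
  have hae : ∀ᵐ x ∂μ, x ∈ Subtype.val '' C := mem_ae_iff.2 hC0
  refine no_sol h hd hF ?_
  filter_upwards [hae] with x hx
  obtain ⟨y, hy, rfl⟩ := hx
  refine confQ_of_allowed _ fun g => ?_
  have h1 := hA (sh g y.1) ⟨(fshift d).T g y, hCi g y hy, rfl⟩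
  have h2 : (fun b : ball (grid d) lclQ.r 0 => F (sh b.1 (sh g y.1))) =
      fun b : ball (grid d) lclQ.r 0 => F (sh (b.1 + g) y.1) := by
    funext b
    rw [sh_add]
  rw [h2] at h1
  exact h1

theorem ergodic_bern {d : ℕ} {g : Gd d} (hg : g ≠ 0) : Ergodic (sh g) (bern d) := by
  classical
  refine ⟨bern_inv d g, ⟨fun s hs hinv => ?_⟩⟩
  have hit : ∀ k : ℕ, ∀ x, sh ((k : ℤ) • g) x ∈ s ↔ x ∈ s := by
    intro k
    induction k with
    | zero =>
      intro x
      rw [Nat.cast_zero, zero_smul, sh_zero]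
    | succ k ih =>
      intro x
      have e : (((k + 1 : ℕ) : ℤ) • g) = (k : ℤ) • g + g := by
        push_cast
        rw [add_smul, one_smul]
      rw [e, sh_add, ih]
      have h1 : (x ∈ sh g ⁻¹' s) = (x ∈ s) := by rw [hinv]
      exact iff_of_eq h1
  obtain ⟨M, hM⟩ := mix2_bern d (fun x => decide (x ∈ s)) (fun b => by
    cases b
    · have : {x | decide (x ∈ s) = false} = sᶜ := by
        ext x
        simp
      rw [this]
      exact hs.compl
    · have : {x | decide (x ∈ s) = true} = s := by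
        ext x
        simp
      rw [this]
      exact hs)
  obtain ⟨i, hi⟩ : ∃ i, g i ≠ 0 := by
    by_contra hc
    push Not at hc
    exact hg (funext hc)
  have hnb : ¬ nb M (((M + 1 : ℕ) : ℤ) • g) := by
    intro h
    have h1 := h i
    rw [Pi.smul_apply, smul_eq_mul, abs_mul] at h1
    have h2 : 1 ≤ |g i| := Int.one_le_abs hi
    have h3 : |((M + 1 : ℕ) : ℤ)| = M + 1 := by
      rw [abs_of_nonneg (by positivity)]
      push_cast
      rfl
    rw [h3] at h1
    nlinarith
  by_cases h1 : ∃ᶠ x in ae (bern d), decide (x ∈ s) = true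
  · by_cases h2 : ∃ᶠ x in ae (bern d), decide (x ∈ s) = false
    · exfalso
      obtain ⟨x, h3, h4⟩ := (hM true false _ hnb h1 h2).exists
      rw [decide_eq_true_eq] at h3
      rw [decide_eq_false_iff_not, hit] at h4
      exact h4 h3
    · rw [Filter.not_frequently] at h2
      refine Filter.eventuallyConst_set'.2 (Or.inr ?_)
      filter_upwards [h2] with x hx
      have h3 : x ∈ s := by
        by_contra h4
        exact hx (decide_eq_false h4)
      exact propext ⟨fun _ => trivial, fun _ => h3⟩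
  · rw [Filter.not_frequently] at h1
    refine Filter.eventuallyConst_set'.2 (Or.inl ?_)
    filter_upwards [h1] with x hx
    have h3 : x ∉ s := fun h4 => hx (decide_eq_true h4)
    exact propext ⟨fun h4 => absurd h4 h3, fun h4 => h4.elim⟩

theorem erg2_bern (d : ℕ) : Erg2 (bern d) where
  inv := bern_inv d
  erg i := ergodic_bern fun h => by
    have := congrFun h i
    rw [Pi.smul_apply, un_self] at this
    simp at this

theorem no_bern {d : ℕ} (hd : 2 ≤ d) : ¬ BernSol d lclQ := no_solFor hd (bern d) (erg2_bern d)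

theorem no_meas {d : ℕ} (hd : 2 ≤ d) : ¬ MeasSol d lclQ := fun h => no_bern hd (bern_of_meas _ h)

theorem meas_of_borel {d : ℕ} {S : Type} (L : LCL S) (h : BorelSol (fshift d) L) : MeasSol d L :=
  fun μ _ => ⟨Set.univ, MeasurableSet.univ, fun _ _ _ => trivial, by simp, solOn_univ L h⟩

theorem main (d : ℕ) (hd : 2 ≤ d) :
    BaireSol d lclQ ∧ ¬ BernSol d lclQ ∧ ¬ MeasSol d lclQ ∧ ¬ BorelSol (fshift d) lclQ ∧
      ∀ (μ : Measure (Om d)) [IsProbabilityMeasure μ], Erg2 μ → ¬ SolFor d μ lclQ :=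
  ⟨baire_sol d hd, no_bern hd, no_meas hd, fun h => no_meas hd (meas_of_borel _ h),
    fun μ _ h => no_solFor hd μ h⟩

end BM
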