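import Pool.Agent.Helper20.BM.Sp
import Pool.Agent.Helper33.NI.GadRes
import Pool.Agent.Helper33.NI.GadNest

/-!
# BM: gadgets with wide rings, and the Baire-measurable solution
-/

set_option autoImplicit false

namespace BM

open EB NI

/-- a gadget whose ring of width `2 d N + 4` is empty -/
def WGad {d : ℕ} (x : Om d) (N : ℕ) (m : Gd d) : Prop :=
  Gad x N m ∧ ∀ p, Sh (-(2 * d * N + 4 : ℤ)) N p → ¬ Sh 0 N p → x (m + p) = false

theorem wgad_wide {d : ℕ} (hd : 2 ≤ d) (x : Om d) (N N' : ℕ) (m m' : Gd d) (h : WGad x N m)
    (h' : WGad x N' m') (hN : N ≤ N') : (N = N' ∧ m = m') ∨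
    (∀ i, m' i + (2 * d * N + 4) ≤ m i ∧ m i + N + (2 * d * N + 4) ≤ m' i + N') ∨
    ∃ i, m i + N + (2 * d * N' + 4) ≤ m' i ∨ m' i + N' + (2 * d * N' + 4) ≤ m i := by
  have h7 := h.1.1
  have hW : (0 : ℤ) ≤ 2 * d * N := by positivity
  have hW' : (0 : ℤ) ≤ 2 * d * N' := by positivity
  obtain ⟨W, hWd⟩ : ∃ W : ℤ, W = 2 * d * N := ⟨_, rfl⟩
  obtain ⟨W', hWd'⟩ : ∃ W : ℤ, W = 2 * d * N' := ⟨_, rfl⟩
  rw [← hWd] at hW ⊢
  rw [← hWd'] at hW' ⊢
  rcases gad_nest hd x N N' m m' h.1 h'.1 hN with h1 | h1 | h1
  · exact Or.inl h1
  · right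
    left
    -- a point of the outer layer of the large cube which would be in the ring of the small one
    have key : ∀ (i : Fin d) (z : ℤ), (z = m' i ∨ z = m' i + N' - 1) →
        ¬ (m i - (W + 4) ≤ z ∧ z < m i + N + (W + 4)) := by
      rintro i z hz ⟨hz1, hz2⟩
      have hD := h1 i
      have hpt : x (Function.update m i z) = true := by
        have h2 := h'.1.2.1 (Function.update m i z - m') (by
            intro j
            by_cases hj : j = i
            · subst hj
              rw [Pi.sub_apply, Function.update_self]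
              omega
            · rw [Pi.sub_apply, Function.update_of_ne hj]
              have := h1 j
              omega) (by
            intro hs
            have := hs i
            rw [Pi.sub_apply, Function.update_self] at this
            omega)
        rwa [add_sub_cancel] at h2
      have hpf : x (Function.update m i z) = false := by
        have h2 := h.2 (Function.update m i z - m) (by
            rw [← hWd]
            intro j
            by_cases hj : j = i
            · subst hj
              rw [Pi.sub_apply, Function.update_self]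
              omega
            · rw [Pi.sub_apply, Function.update_of_ne hj]
              omega) (by
            intro hs
            have := hs i
            rw [Pi.sub_apply, Function.update_self] at this
            omega)
        rwa [add_sub_cancel] at h2
      rw [hpt] at hpf
      exact absurd hpf (by simp)
    intro i
    have hD := h1 i
    have k1 := key i (m' i) (Or.inl rfl)
    have k2 := key i (m' i + N' - 1) (Or.inr rfl)
    constructor <;> omega
  · right
    right
    by_contra hA
    push Not at hA
    -- the corner of the small cube in the ring of the large one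
    obtain ⟨s, hs⟩ : ∃ s : Fin d → Bool, s = fun i => decide (m i < m' i - (W' + 4)) := ⟨_, rfl⟩
    have hcor : ∀ i, m' i - (W' + 4) ≤ cor N m s i ∧ cor N m s i < m' i + N' + (W' + 4) := by
      intro i
      have h2 := hA i
      rw [hs]
      simp only [cor, decide_eq_true_eq]
      split_ifs with h3 <;> omega
    have hin : ∀ i, m i ≤ cor N m s i ∧ cor N m s i < m i + N := by
      intro i
      unfold cor
      split_ifs <;> omega
    have hpt : x (cor N m s) = true := by
      have h2 := h.1.2.1 (cor N m s - m) (by
          intro j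
          have := hin j
          rw [Pi.sub_apply]
          omega) (by
          intro hs2
          have h3 := hs2 ⟨0, by omega⟩
          rw [Pi.sub_apply] at h3
          unfold cor at h3
          split_ifs at h3 <;> omega)
      rwa [add_sub_cancel] at h2
    have hpf : x (cor N m s) = false := by
      have h2 := h'.2 (cor N m s - m') (by
          rw [← hWd']
          intro j
          have := hcor j
          rw [Pi.sub_apply]
          omega) (by
          intro hs2
          obtain ⟨i, hi⟩ := h1
          have h3 := hs2 i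
          have h4 := hin i
          rw [Pi.sub_apply] at h3
          omega)
      rwa [add_sub_cancel] at h2
    rw [hpt] at hpf
    exact absurd hpf (by simp)

private theorem sh_finite {d : ℕ} (r : ℤ) (N : ℕ) : {p : Gd d | Sh r N p}.Finite := by
  refine (Set.Finite.pi (t := fun _ : Fin d => Set.Icc r ((N : ℤ) - r)) fun _ =>
    Set.finite_Icc _ _).subset fun p hp => ?_
  intro i _
  exact ⟨(hp i).1, (hp i).2.le⟩

private theorem open_val {d : ℕ} (q : Gd d) (b : Bool) (P : Prop) :
    IsOpen {x : Om d | P → x q = b} := by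
  by_cases hP : P
  · have h : {x : Om d | P → x q = b} = (fun x : Om d => x q) ⁻¹' {b} := by
      ext x
      simp [hP]
    rw [h]
    exact (isOpen_discrete _).preimage (continuous_apply q)
  · have h : {x : Om d | P → x q = b} = Set.univ := by
      ext x
      simp [hP]
    rw [h]
    exact isOpen_univ

theorem wgad_open {d : ℕ} (N : ℕ) (m : Gd d) : IsOpen {x : Om d | WGad x N m} := by
  have h : {x : Om d | WGad x N m} = {x : Om d | Gad x N m} ∩
      ⋂ p ∈ {p : Gd d | Sh (-(2 * d * N + 4 : ℤ)) N p}, {x : Om d | ¬ Sh 0 N p → x (m + p) = false} := by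
    ext x
    simp only [Set.mem_ofPred_eq, Set.mem_inter_iff, Set.mem_iInter]
    rfl
  rw [h]
  exact (gad_open N m).inter ((sh_finite _ N).isOpen_biInter fun p _ => open_val _ _ _)

theorem wgad_dense {d : ℕ} (g : Gd d) : Dense {x : Om d | ∃ N m, WGad x N m ∧ Sh 0 N (g - m)} := by
  classical
  rw [dense_iff_inter_open]
  rintro U hU ⟨x0, hx0⟩
  obtain ⟨I, u, hu, hsub⟩ := isOpen_pi_iff.1 hU x0 hx0
  obtain ⟨r, hr⟩ : ∃ r : ℕ, ∀ p ∈ insert g I, ∀ i, |p i| ≤ (r : ℤ) := by
    refine ⟨(insert g I).sup fun p => Finset.univ.sup fun i => (p i).natAbs, fun p hp i => ?_⟩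
    have h1 : (p i).natAbs ≤ Finset.univ.sup fun i => (p i).natAbs :=
      Finset.le_sup (f := fun i => (p i).natAbs) (Finset.mem_univ i)
    have h2 : (Finset.univ.sup fun i => (p i).natAbs) ≤
        (insert g I).sup fun p => Finset.univ.sup fun i => (p i).natAbs :=
      Finset.le_sup (f := fun p : Gd d => Finset.univ.sup fun i => (p i).natAbs) hp
    have h3 := h1.trans h2
    rw [Int.abs_eq_natAbs]
    exact_mod_cast h3
  obtain ⟨m, hm⟩ : ∃ m : Gd d, m = fun _ => -(r : ℤ) - 3 := ⟨_, rfl⟩
  obtain ⟨x, hx⟩ : ∃ x : Om d, x = fun p => if ∀ i, |p i| ≤ (r : ℤ) then x0 p else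
    if Sh 0 (2 * r + 7) (p - m) ∧ ¬ Sh 1 (2 * r + 7) (p - m) then true else false := ⟨_, rfl⟩
  have hbox : ∀ p : Gd d, (∀ i, |(m + p) i| ≤ (r : ℤ)) ↔ Sh 3 (2 * r + 7) p := by
    intro p
    constructor
    · intro h i
      have h1 := abs_le.1 (h i)
      rw [hm] at h1
      simp only [Pi.add_apply] at h1
      constructor
      · omega
      · push_cast
        omega
    · intro h i
      have h1 := h i
      push_cast at h1
      rw [hm, abs_le]
      simp only [Pi.add_apply]
      constructor
      · omega
      · omega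
  have hval : ∀ p : Gd d, ¬ Sh 3 (2 * r + 7) p →
      x (m + p) = if Sh 0 (2 * r + 7) p ∧ ¬ Sh 1 (2 * r + 7) p then true else false := by
    intro p hp
    have h1 : ¬ ∀ i, |(m + p) i| ≤ (r : ℤ) := fun h => hp ((hbox p).1 h)
    rw [hx]
    simp only [if_neg h1, add_sub_cancel_left]
  have hmono : ∀ {r r' : ℤ} {N : ℕ} {p : Gd d}, Sh r N p → r' ≤ r → Sh r' N p :=
    fun h hr i => ⟨hr.trans (h i).1, by have := (h i).2; omega⟩
  have hring : ∀ p : Gd d, ¬ Sh 0 (2 * r + 7) p → x (m + p) = false := by
    intro p h0
    rw [hval p (fun h => h0 (hmono h (by norm_num))), if_neg fun h => h0 h.1]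
  refine ⟨x, hsub fun p hp => ?_, 2 * r + 7, m, ⟨⟨by omega, fun p h0 h1 => ?_, fun p h0 h1 => ?_,
    fun p _ h1 => hring p h1⟩, fun p _ h1 => hring p h1⟩, ?_⟩
  · have h1 : ∀ i, |p i| ≤ (r : ℤ) := hr p (Finset.mem_insert_of_mem hp)
    have h2 : x p = x0 p := by
      rw [hx]
      exact if_pos h1
    rw [h2]
    exact (hu p hp).2
  · rw [hval p (fun h => h1 (hmono h (by norm_num))), if_pos ⟨h0, h1⟩]
  · rw [hval p h1, if_neg fun h => h.2 h0]
  · intro i
    have h1 := abs_le.1 (hr g (Finset.mem_insert_self _ _) i)
    rw [hm]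
    simp only [Pi.sub_apply]
    constructor
    · omega
    · push_cast
      omega

end BM
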