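import Pool.Agent.Helper20.BM.Rw
import Pool.Agent.Helper20.BM.Dec
import Pool.Agent.Helper27.EB.Mix2M

/-!
# BM: no solution for an invariant measure for which each `2 e_i` is ergodic
-/

set_option autoImplicit false

namespace BM

open EB NI MeasureTheory

variable {d : ℕ} {μ : Measure (Om d)}

/-- `μ` is shift invariant and each `2 e_i` acts ergodically. -/
structure Erg2 {d : ℕ} (μ : Measure (Om d)) : Prop where
  inv : ∀ g, MeasurePreserving (sh g) μ μ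
  erg : ∀ i, Ergodic (sh ((2 : ℤ) • un i)) μ

theorem Erg2.ae (h : Erg2 μ) (g : Gd d) {P : Om d → Prop} (hP : ∀ᵐ x ∂μ, P x) :
    ∀ᵐ x ∂μ, P (sh g x) :=
  (h.inv g).quasiMeasurePreserving.ae hP

theorem Erg2.all (h : Erg2 μ) {P : Om d → Prop} (hP : ∀ᵐ x ∂μ, P x) :
    ∀ᵐ x ∂μ, ∀ g, P (sh g x) := ae_all_iff.2 fun g => h.ae g hP

theorem Erg2.two [IsProbabilityMeasure μ] (h : Erg2 μ) (i : Fin d) {E : Set (Om d)}
    (hE : MeasurableSet E) (hi : ∀ᵐ x ∂μ, x ∈ E → sh ((2 : ℤ) • un i) x ∈ E) :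
    (∀ᵐ x ∂μ, x ∈ E) ∨ ∀ᵐ x ∂μ, x ∉ E := by
  rcases (h.erg i).ae_empty_or_univ_of_ae_le_preimage hE.nullMeasurableSet hi with h1 | h1
  · right
    filter_upwards [h1] with x hx hx2
    have h2 : (x ∈ E) = (x ∈ (∅ : Set (Om d))) := hx
    rw [h2] at hx2
    exact hx2
  · left
    filter_upwards [h1] with x hx
    have h2 : (x ∈ E) = (x ∈ (Set.univ : Set (Om d))) := hx
    rw [h2]
    trivial

theorem Erg2.one [IsProbabilityMeasure μ] (h : Erg2 μ) {e : Gd d} (he : Un e) {E : Set (Om d)}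
    (hE : MeasurableSet E) (hi : ∀ᵐ x ∂μ, x ∈ E → sh e x ∈ E) :
    (∀ᵐ x ∂μ, x ∈ E) ∨ ∀ᵐ x ∂μ, x ∉ E := by
  have pos : ∀ (i : Fin d) {E : Set (Om d)}, MeasurableSet E → (∀ᵐ x ∂μ, x ∈ E → sh (un i) x ∈ E) →
      (∀ᵐ x ∂μ, x ∈ E) ∨ ∀ᵐ x ∂μ, x ∉ E := by
    intro i E hE hi
    refine h.two i hE ?_
    filter_upwards [hi, h.ae (un i) hi] with x h1 h2 h3
    have h4 := h2 (h1 h3)
    rw [← sh_add] at h4
    rwa [two_smul]
  obtain ⟨i, rfl | rfl⟩ := he
  · exact pos i hE hi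
  · rcases pos i hE.compl (by
      filter_upwards [h.ae (un i) hi] with x h1 h2 h3
      have h4 := h1 h3
      rw [← sh_add, neg_add_cancel, sh_zero] at h4
      exact h2 h4) with h1 | h1
    · right
      exact h1
    · left
      filter_upwards [h1] with x h2
      by_contra h3
      exact h2 h3

theorem zmod3_succ : ∀ r : ZMod 3, r + 1 ≠ r := by decide

theorem ae_false [IsProbabilityMeasure μ] (h : ∀ᵐ _x ∂μ, False) : False := by
  obtain ⟨x, hx⟩ := h.exists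
  exact hx

section

variable {F : Om d → LabQ} (hF : Ms F)

include hF

theorem ms_l (g : Gd d) : Ms fun x => (F (sh g x)).1.1 :=
  (hF.precomp (sh_meas g)).comp fun a => a.1.1

theorem ms_b (g : Gd d) : Ms fun x => (F (sh g x)).1.2 :=
  (hF.precomp (sh_meas g)).comp fun a => a.1.2

theorem ms_q (g : Gd d) : Ms fun x => (F (sh g x)).2 :=
  (hF.precomp (sh_meas g)).comp fun a => a.2

/-- faces are finite -/
theorem no_face [IsProbabilityMeasure μ] (h : Erg2 μ) (e : Gd d) {f : Gd d} (hf : Un f)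
    (r : ZMod 3) : ∀ᵐ x ∂μ, ¬ ∀ k : ℕ, (F (sh ((k : ℤ) • f) x)).1.1 = r ∧
      (F (sh ((k : ℤ) • f + e) x)).1.1 = r + 1 := by
  have hE : MeasurableSet {x | ∀ k : ℕ, (F (sh ((k : ℤ) • f) x)).1.1 = r ∧
      (F (sh ((k : ℤ) • f + e) x)).1.1 = r + 1} := by
    have h1 : {x | ∀ k : ℕ, (F (sh ((k : ℤ) • f) x)).1.1 = r ∧
      (F (sh ((k : ℤ) • f + e) x)).1.1 = r + 1} = ⋂ k : ℕ, ({x | (F (sh ((k : ℤ) • f) x)).1.1 = r} ∩
        {x | (F (sh ((k : ℤ) • f + e) x)).1.1 = r + 1}) := by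
      ext x
      simp
    rw [h1]
    exact MeasurableSet.iInter fun k => (ms_l hF _ _).inter (ms_l hF _ _)
  have hi : ∀ᵐ x ∂μ, x ∈ {x | ∀ k : ℕ, (F (sh ((k : ℤ) • f) x)).1.1 = r ∧
      (F (sh ((k : ℤ) • f + e) x)).1.1 = r + 1} → sh f x ∈ {x | ∀ k : ℕ,
      (F (sh ((k : ℤ) • f) x)).1.1 = r ∧ (F (sh ((k : ℤ) • f + e) x)).1.1 = r + 1} := by
    refine Filter.Eventually.of_forall fun x hx k => ?_
    have h2 := hx (k + 1)
    have e1 : sh ((k : ℤ) • f) (sh f x) = sh (((k + 1 : ℕ) : ℤ) • f) x := by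
      rw [← sh_add]
      congr 1
      push_cast
      rw [add_smul, one_smul]
    have e2 : sh ((k : ℤ) • f + e) (sh f x) = sh (((k + 1 : ℕ) : ℤ) • f + e) x := by
      rw [← sh_add]
      congr 1
      push_cast
      rw [add_smul, one_smul]
      abel
    rw [e1, e2]
    exact h2
  rcases h.one hf hE hi with h1 | h1
  · exfalso
    apply ae_false (μ := μ)
    filter_upwards [h1, h.ae e h1] with x h2 h3
    have h4 := (h2 0).2
    have h5 := (h3 0).1
    rw [Nat.cast_zero, zero_smul, zero_add] at h4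
    rw [Nat.cast_zero, zero_smul, sh_zero, h4] at h5
    exact zmod3_succ r h5
  · exact h1

omit hF in
/-- an exit edge at `x` with a moat of length `k + 1` behind it -/
def RunX (F : Om d → LabQ) (e : Gd d) (k : ℕ) (x : Om d) : Prop :=
  (F (sh 0 x)).1.1 = 2 ∧ (F (sh e x)).1.1 = 0 ∧ (F (sh 0 x)).2 = none ∧
    ∀ i : ℕ, i ≤ k → (F (sh ((1 + i : ℤ) • e) x)).2 = some (i : ZMod 3)

theorem runX_meas (e : Gd d) (k : ℕ) : MeasurableSet {x | RunX F e k x} := by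
  have h1 : {x | RunX F e k x} = ({x | (F (sh 0 x)).1.1 = 2} ∩ {x | (F (sh e x)).1.1 = 0}) ∩
      ({x | (F (sh 0 x)).2 = none} ∩ ⋂ i : ℕ, ⋂ _ : i ≤ k,
        {x | (F (sh ((1 + i : ℤ) • e) x)).2 = some (i : ZMod 3)}) := by
    ext x
    simp [RunX]
    tauto
  rw [h1]
  refine ((ms_l hF _ _).inter (ms_l hF _ _)).inter ((ms_q hF _ _).inter ?_)
  exact MeasurableSet.iInter fun i => MeasurableSet.iInter fun _ => ms_q hF _ _

/-- moats which reach out as far as the point lies inside -/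
theorem no_run [IsProbabilityMeasure μ] (h : Erg2 μ) (e : Gd d) :
    ∀ᵐ x ∂μ, ∃ K : ℕ, ∀ k, K ≤ k → ¬ RunX F e k (sh ((k : ℤ) • e) x) := by
  have hD : ∀ k : ℕ, MeasurableSet {x | RunX F e k (sh (-((k : ℤ) + 1) • e) x)} := fun k =>
    (sh_meas _) (runX_meas hF e k)
  have h1 : ∀ k : ℕ, μ {x | RunX F e k (sh ((k : ℤ) • e) x)} =
      μ {x | RunX F e k (sh (-((k : ℤ) + 1) • e) x)} := by
    intro k
    have a1 := (h.inv ((k : ℤ) • e)).measure_preimage (runX_meas hF e k).nullMeasurableSet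
    have a2 := (h.inv (-((k : ℤ) + 1) • e)).measure_preimage (runX_meas hF e k).nullMeasurableSet
    exact a1.trans a2.symm
  have hdis : Pairwise (Function.onFun Disjoint
      fun k : ℕ => {x | RunX F e k (sh (-((k : ℤ) + 1) • e) x)}) := by
    have key : ∀ j k : ℕ, j < k → ∀ x, RunX F e j (sh (-((j : ℤ) + 1) • e) x) →
        RunX F e k (sh (-((k : ℤ) + 1) • e) x) → False := by
      intro j k hjk x h2 h3
      have h4 := h2.2.2.1
      have h5 := h3.2.2.2 (k - j - 1) (by omega)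
      rw [← sh_add, zero_add] at h4
      rw [← sh_add, ← add_smul] at h5
      have e1 : (1 + ((k - j - 1 : ℕ) : ℤ) + -((k : ℤ) + 1)) = -((j : ℤ) + 1) := by
        omega
      rw [e1, h4] at h5
      exact absurd h5 (by simp)
    intro j k hjk
    rw [Function.onFun, Set.disjoint_left]
    intro x h2 h3
    rcases lt_or_gt_of_ne hjk with h4 | h4
    · exact key j k h4 x h2 h3
    · exact key k j h4 x h3 h2
  have hsum : ∑' k : ℕ, μ {x | RunX F e k (sh ((k : ℤ) • e) x)} ≠ ⊤ := by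
    simp only [h1]
    rw [← measure_iUnion hdis hD]
    exact measure_ne_top _ _
  filter_upwards [ae_eventually_notMem hsum] with x hx
  obtain ⟨K, hK⟩ := Filter.eventually_atTop.1 hx
  exact ⟨K, hK⟩

end

/-- A configuration with finite faces and moats as in `no_run`. -/
structure GC (y : Gd d → LabQ) : Prop where
  conf : ConfQ y
  fin : ∀ (g e f : Gd d) (r : ZMod 3), Un e → Un f → ¬ ∀ k : ℕ, (y (g + (k : ℤ) • f)).1.1 = r ∧
    (y (g + (k : ℤ) • f + e)).1.1 = r + 1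
  run : ∀ g e : Gd d, Un e → ∃ K : ℕ, ∀ k : ℕ, K ≤ k → ¬ ((y (g + (k : ℤ) • e)).1.1 = 2 ∧
    (y (g + (k : ℤ) • e + e)).1.1 = 0 ∧ (y (g + (k : ℤ) • e)).2 = none ∧
      ∀ i : ℕ, i ≤ k → (y (g + (k : ℤ) • e + (1 + i : ℤ) • e)).2 = some (i : ZMod 3))

theorem ae_gc [IsProbabilityMeasure μ] {F : Om d → LabQ} (hF : Ms F) (h : Erg2 μ)
    (hc : ∀ᵐ x ∂μ, ConfQ fun g => F (sh g x)) : ∀ᵐ x ∂μ, GC fun g => F (sh g x) := by
  have hun : {e : Gd d | Un e}.Countable := Set.to_countable _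
  have h1 : ∀ᵐ x ∂μ, ∀ e f : Gd d, ∀ r : ZMod 3, Un f → ∀ g : Gd d,
      ¬ ∀ k : ℕ, (F (sh ((k : ℤ) • f) (sh g x))).1.1 = r ∧
      (F (sh ((k : ℤ) • f + e) (sh g x))).1.1 = r + 1 := by
    rw [ae_all_iff]
    intro e
    rw [ae_all_iff]
    intro f
    rw [ae_all_iff]
    intro r
    by_cases hf : Un f
    · filter_upwards [h.all (no_face hF h e hf r)] with x hx _
      exact hx
    · exact Filter.Eventually.of_forall fun x hx => absurd hx hf
  have h2 : ∀ᵐ x ∂μ, ∀ e : Gd d, ∀ g : Gd d,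
      ∃ K : ℕ, ∀ k, K ≤ k → ¬ RunX F e k (sh ((k : ℤ) • e) (sh g x)) := by
    rw [ae_all_iff]
    intro e
    exact h.all (no_run hF h e)
  filter_upwards [hc, h1, h2] with x a0 a1 a2
  refine ⟨a0, ?_, ?_⟩
  · intro g e f r _ hf hk
    refine a1 e f r hf g fun k => ?_
    have h3 := hk k
    rw [← sh_add, ← sh_add]
    rw [add_comm g, add_assoc, add_comm g e, ← add_assoc] at h3
    exact h3
  · intro g e _
    obtain ⟨K, hK⟩ := a2 e g
    refine ⟨K, fun k hk h3 => hK k hk ?_⟩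
    obtain ⟨b1, b2, b3, b4⟩ := h3
    have e0 : sh 0 (sh ((k : ℤ) • e) (sh g x)) = sh (g + (k : ℤ) • e) x := by
      rw [← sh_add, ← sh_add]
      congr 1
      abel
    have e1 : sh e (sh ((k : ℤ) • e) (sh g x)) = sh (g + (k : ℤ) • e + e) x := by
      rw [← sh_add, ← sh_add]
      congr 1
      abel
    refine ⟨by rw [e0]; exact b1, by rw [e1]; exact b2, by rw [e0]; exact b3, fun i hi => ?_⟩
    have e2 : sh ((1 + i : ℤ) • e) (sh ((k : ℤ) • e) (sh g x)) =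
        sh (g + (k : ℤ) • e + (1 + i : ℤ) • e) x := by
      rw [← sh_add, ← sh_add]
      congr 1
      abel
    rw [e2]
    exact b4 i hi

end BM
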