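import Pool.Agent.Helper20.BM.Dec
import Pool.Agent.Helper33.NI.LabConf

/-!
# BM: moats
-/

set_option autoImplicit false

namespace BM

open EB NI

/-- the distance from the ends of the interval `[0, N)` -/
def dlt (N : ℕ) (z : ℤ) : ℤ := min z (N - 1 - z)

/-- the height of the pyramid over a face with the axis `i` -/
def Dd {d : ℕ} (N : ℕ) (i : Fin d) (p : Gd d) : ℤ := ∑ j ∈ Finset.univ.erase i, dlt N (p j)

/-- the position `p` is in the moat of the cube `[0, N)^d`, at distance `t` from the cube -/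
def Moat {d : ℕ} (N : ℕ) (p : Gd d) (t : ℤ) : Prop :=
  0 ≤ t ∧ ∃ i, (p i = -1 - t ∨ p i = N + t) ∧ (∀ j, j ≠ i → 0 ≤ p j ∧ p j < N) ∧ t ≤ Dd N i p

variable {d : ℕ}

theorem dlt_le {N : ℕ} (z : ℤ) (h : 0 ≤ z ∧ z < N) : 0 ≤ dlt N z ∧ dlt N z ≤ N := by
  unfold dlt
  constructor
  · exact le_min h.1 (by omega)
  · exact (min_le_left _ _).trans h.2.le

theorem dlt_step {N : ℕ} (z t c : ℤ) (h1 : t ≤ dlt N (z + 1) + c) (h2 : t ≤ dlt N (z - 1) + c) :
    t + 1 ≤ dlt N z + c := by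
  unfold dlt at *
  rcases min_choice z (N - 1 - z : ℤ) with h | h
  · rw [h]
    have := min_le_left (z - 1) (N - 1 - (z - 1) : ℤ)
    omega
  · rw [h]
    have := min_le_right (z + 1) (N - 1 - (z + 1) : ℤ)
    omega

theorem Moat.bd {N : ℕ} {p : Gd d} {t : ℤ} (h : Moat N p t) (i : Fin d) :
    -(d * N : ℤ) - 1 ≤ p i ∧ p i ≤ N + d * N := by
  obtain ⟨h0, k, hk, hj, ht⟩ := h
  have h1 : Dd N k p ≤ d * N := by
    have h2 : Dd N k p ≤ ∑ j ∈ Finset.univ.erase k, (N : ℤ) := by
      refine Finset.sum_le_sum fun j hj' => ?_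
      exact (dlt_le (p j) (hj j (Finset.ne_of_mem_erase hj'))).2
    rw [Finset.sum_const, nsmul_eq_mul] at h2
    refine h2.trans ?_
    have h3 : ((Finset.univ.erase k).card : ℤ) ≤ d := by
      have := Finset.card_le_card (Finset.erase_subset k (Finset.univ : Finset (Fin d)))
      rw [Finset.card_univ, Fintype.card_fin] at this
      exact_mod_cast this
    exact mul_le_mul_of_nonneg_right h3 (by omega)
  have h4 : (0 : ℤ) ≤ d * N := by positivity
  by_cases hik : i = k
  · subst hik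
    rcases hk with hk | hk <;> rw [hk] <;> constructor <;> omega
  · have := hj i hik
    constructor <;> omega

/-- a position in the moat is outside the cube -/
theorem Moat.out {N : ℕ} {p : Gd d} {t : ℤ} (h : Moat N p t) (hs : Sh 0 N p) : False := by
  obtain ⟨h0, k, hk, -, -⟩ := h
  have := hs k
  omega

/-- two adjacent positions in the moat have the same axis, and the distances differ by at most `1` -/
theorem Moat.adj {N : ℕ} {p e : Gd d} {t t' : ℤ} (h : Moat N p t) (h' : Moat N (p + e) t')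
    (he : Un e) (hN : 2 ≤ N) : ∃ i, ((p i = -1 - t ∧ t' = t - e i) ∨ (p i = N + t ∧ t' = t + e i)) ∧
      (∀ j, j ≠ i → 0 ≤ p j ∧ p j < N) ∧ (∀ j, j ≠ i → 0 ≤ p j + e j ∧ p j + e j < N) ∧
      t ≤ Dd N i p ∧ t' ≤ Dd N i (p + e) := by
  obtain ⟨h0, i, hi, hj, ht⟩ := h
  obtain ⟨h0', i', hi', hj', ht'⟩ := h'
  have hii : i' = i := by
    by_contra hc
    have a1 := hj i' hc
    have a2 := hj' i (fun e => hc e.symm)
    rw [Pi.add_apply] at hi' a2
    obtain ⟨k, hk | hk⟩ := he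
    · by_cases b1 : i = k
      · subst b1
        rw [hk, un_off hc] at hi'
        omega
      · rw [hk, un_off b1] at a2
        omega
    · by_cases b1 : i = k
      · subst b1
        rw [hk, Pi.neg_apply, un_off hc] at hi'
        omega
      · rw [hk, Pi.neg_apply, un_off b1] at a2
        omega
  subst hii
  refine ⟨i', ?_, hj, fun j hj2 => ?_, ht, ht'⟩
  · rw [Pi.add_apply] at hi'
    have := he.bd i'
    omega
  · have := hj' j hj2
    rwa [Pi.add_apply] at this

/-- an island system with wide gaps -/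
structure WIsl {d : ℕ} (J : ℕ → Gd d → Prop) : Prop where
  isl : Isl J
  big : ∀ N m, J N m → 7 ≤ N
  wide : ∀ N m N' m', J N m → J N' m' → N ≤ N' → (N = N' ∧ m = m') ∨
    (∀ i, m' i + (2 * d * N + 4) ≤ m i ∧ m i + N + (2 * d * N + 4) ≤ m' i + N') ∨
    ∃ i, m i + N + (2 * d * N' + 4) ≤ m' i ∨ m' i + N' + (2 * d * N' + 4) ≤ m i

variable {J : ℕ → Gd d → Prop}

private theorem same_aux (hJ : WIsl J) {N N' : ℕ} {m m' g g' : Gd d} {t t' : ℤ} (h : J N m)
    (h' : J N' m') (ht : Moat N (g - m) t) (ht' : Moat N' (g' - m') t')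
    (hg : ∀ i, |g i - g' i| ≤ 1) (hle : N ≤ N') : N = N' ∧ m = m' := by
  have hdN : (d * N : ℤ) ≤ d * N' := by
    have : d * N ≤ d * N' := Nat.mul_le_mul_left _ hle
    exact_mod_cast this
  rcases hJ.wide N m N' m' h h' hle with h1 | h1 | ⟨i, h1⟩
  · exact h1
  · exfalso
    refine ht'.out fun i => ?_
    have a1 := h1 i
    have a2 := ht.bd i
    have a3 := abs_le.1 (hg i)
    have a4 : (0 : ℤ) ≤ d * N := by positivity
    rw [Pi.sub_apply] at a2 ⊢
    rw [mul_assoc] at a1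
    constructor <;> omega
  · exfalso
    have a2 := ht.bd i
    have a3 := abs_le.1 (hg i)
    have a4 := ht'.bd i
    rw [Pi.sub_apply] at a2 a4
    rw [mul_assoc] at h1
    omega

/-- close positions in moats belong to the same island -/
theorem WIsl.same (hJ : WIsl J) {N N' : ℕ} {m m' g g' : Gd d} {t t' : ℤ} (h : J N m)
    (h' : J N' m') (ht : Moat N (g - m) t) (ht' : Moat N' (g' - m') t')
    (hg : ∀ i, |g i - g' i| ≤ 1) : N = N' ∧ m = m' := by
  rcases le_total N N' with hle | hle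
  · exact same_aux hJ h h' ht ht' hg hle
  · have := same_aux hJ h' h ht' ht (fun i => by rw [abs_sub_comm]; exact hg i) hle
    exact ⟨this.1.symm, this.2.symm⟩

/-- the moat label of the cell `g` -/
def IsQ {d : ℕ} (J : ℕ → Gd d → Prop) (g : Gd d) (c : Option (ZMod 3)) : Prop :=
  (∃ (N : ℕ) (m : Gd d) (t : ℤ), J N m ∧ Moat N (g - m) t ∧ c = some (t : ZMod 3)) ∨
    ((∀ (N : ℕ) (m : Gd d) (t : ℤ), J N m → ¬ Moat N (g - m) t) ∧ c = none)

theorem IsQ.some_iff {g : Gd d} {c : Option (ZMod 3)} {k : ZMod 3} (h : IsQ J g c) (hc : c = some k) :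
    ∃ (N : ℕ) (m : Gd d) (t : ℤ), J N m ∧ Moat N (g - m) t ∧ k = (t : ZMod 3) := by
  rcases h with ⟨N, m, t, h1, h2, h3⟩ | ⟨-, h3⟩
  · refine ⟨N, m, t, h1, h2, ?_⟩
    rw [hc] at h3
    exact Option.some_injective _ h3
  · rw [hc] at h3
    exact absurd h3 (by simp)

theorem moat_t_uniq {N : ℕ} {p : Gd d} {t t' : ℤ} (hN : 2 ≤ N) (h : Moat N p t) (h' : Moat N p t') :
    t = t' := by
  obtain ⟨h0, i, hi, hj, -⟩ := h
  obtain ⟨h0', i', hi', hj', -⟩ := h'
  have hii : i' = i := by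
    by_contra hc
    have a1 := hj i' hc
    omega
  subst hii
  omega

theorem WIsl.q_eq (hJ : WIsl J) {g : Gd d} {c : Option (ZMod 3)} (h : IsQ J g c) {N : ℕ} {m : Gd d}
    {t : ℤ} (h1 : J N m) (h2 : Moat N (g - m) t) : c = some (t : ZMod 3) := by
  rcases h with ⟨N', m', t', h3, h4, h5⟩ | ⟨h3, -⟩
  · obtain ⟨rfl, rfl⟩ := hJ.same h1 h3 h2 h4 (fun i => by rw [sub_self]; simp)
    rw [h5, moat_t_uniq (by have := hJ.big _ _ h1; omega) h2 h4]
  · exact absurd h2 (h3 N m t h1)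

theorem WIsl.q_uniq (hJ : WIsl J) (g : Gd d) : ∃! c, IsQ J g c := by
  by_cases h : ∃ (N : ℕ) (m : Gd d) (t : ℤ), J N m ∧ Moat N (g - m) t
  · obtain ⟨N, m, t, h1, h2⟩ := h
    exact ⟨some t, Or.inl ⟨N, m, t, h1, h2, rfl⟩, fun c hc => hJ.q_eq hc h1 h2⟩
  · push Not at h
    refine ⟨none, Or.inr ⟨h, rfl⟩, fun c hc => ?_⟩
    rcases hc with ⟨N, m, t, h1, h2, -⟩ | ⟨-, h3⟩
    · exact absurd h2 (h N m t h1)
    · exact h3

theorem un_abs {e : Gd d} (he : Un e) (g : Gd d) (i : Fin d) : |g i - (g + e) i| ≤ 1 := by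
  have := he.bd i
  rw [abs_le, Pi.add_apply]
  constructor <;> omega

/-- the exit edges are the edges which leave an island -/
theorem exit_edge (hJ : WIsl J) {y : Gd d → LabQ} (hy : ∀ g, IsLab J g (y g).1) {g e : Gd d}
    (he : Un e) (h1 : (y g).1.1 = 2) (h2 : (y (g + e)).1.1 = 0) :
    ∃ N m, J N m ∧ Sh 0 N (g - m) ∧ ¬ Sh 0 N (g + e - m) := by
  obtain ⟨N, m, hF, hc⟩ := hy g
  obtain ⟨N', m', hF', hc'⟩ := hy (g + e)
  rw [hc] at h1
  rw [hc'] at h2
  change lev N (g - m) = 2 at h1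
  change lev N' (g + e - m') = 0 at h2
  have hd : ∀ i, |g i - (g + e) i| ≤ 1 := un_abs he g
  rcases hJ.isl.key hd hF hF' with ⟨rfl, rfl⟩ | ⟨h3, -⟩ | ⟨h3, -⟩
  · exfalso
    have a1 : Sh 2 N (g + e - m) := by
      by_contra hc2
      unfold lev at h2
      rw [if_neg hc2] at h2
      split_ifs at h2 <;> revert h2 <;> decide
    have a2 : Sh 1 N (g - m) := by
      intro i
      have b1 := a1 i
      have b2 := abs_le.1 (hd i)
      simp only [Pi.sub_apply] at b1 ⊢
      constructor <;> omega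
    unfold lev at h1
    split_ifs at h1 <;> revert h1 <;> decide
  · exact ⟨N, m, hF.1, hF.2.1, h3⟩
  · exfalso
    have h4 := lev_two N' (g + e - m') (g - m') hF'.2.1 h3 fun i => by
      have b2 := abs_le.1 (hd i)
      simp only [Pi.sub_apply]
      rw [abs_le]
      constructor <;> omega
    rw [h2] at h4
    revert h4
    decide

/-- the outer end of an exit edge is in the moat, at distance `0` -/
theorem exit_moat {N : ℕ} {p e : Gd d} (he : Un e) (h1 : Sh 0 N p) (h2 : ¬ Sh 0 N (p + e)) :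
    ∃ i, ((p + e) i = -1 ∧ p i = 0 ∨ (p + e) i = N ∧ p i = N - 1) ∧ Moat N (p + e) 0 := by
  have hex : ∃ i, ¬ (0 ≤ (p + e) i ∧ (p + e) i < N - 0) := by
    by_contra hc
    push Not at hc
    exact h2 fun i => ⟨(hc i).1, by have := (hc i).2; omega⟩
  obtain ⟨i, hi⟩ := hex
  have hb := he.bd i
  have hp := h1 i
  rw [Pi.add_apply] at hi
  have hi0 : e i ≠ 0 := by
    intro h0
    rw [h0] at hi
    omega
  have hoff : ∀ j, j ≠ i → (p + e) j = p j := by
    intro j hj
    rw [Pi.add_apply]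
    obtain ⟨k, hk | hk⟩ := he
    · by_cases hik : i = k
      · subst hik
        rw [hk, un_off hj, add_zero]
      · rw [hk, un_off hik] at hi0
        exact absurd rfl hi0
    · by_cases hik : i = k
      · subst hik
        rw [hk, Pi.neg_apply, un_off hj, neg_zero, add_zero]
      · rw [hk, Pi.neg_apply, un_off hik] at hi0
        exact absurd neg_zero hi0
  have hcase : (p + e) i = -1 ∧ p i = 0 ∨ (p + e) i = N ∧ p i = N - 1 := by
    rw [Pi.add_apply]
    omega
  refine ⟨i, hcase, le_rfl, i, ?_, ?_, ?_⟩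
  · omega
  · intro j hj
    rw [hoff j hj]
    have := h1 j
    constructor <;> omega
  · refine Finset.sum_nonneg fun j hj => ?_
    rw [hoff j (Finset.ne_of_mem_erase hj)]
    refine (dlt_le (p j) ?_).1
    have := h1 j
    constructor <;> omega

end BM
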