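import Pool.Agent.Helper24.NI.Plane

/-!
# BM: configurations on the plane

`l`: the class mod 3 of the height, `b`: the parity, `q`: the moat labels.  If all faces are finite and each point sees only finitely many
moats which reach as far out as the point lies inside, then the height is bounded.
-/

set_option autoImplicit false

namespace BM

open NIC

/-- an exit edge at distance `k` with a moat of length `k + 1` behind it -/
def Run (l : ℤ → ℤ → ZMod 3) (q : ℤ → ℤ → Option (ZMod 3)) (x y s : ℤ) (k : ℕ) : Prop :=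
  l (x + s * k) y = 2 ∧ l (x + s * (k + 1)) y = 0 ∧ q (x + s * k) y = none ∧
    ∀ i : ℕ, i ≤ k → q (x + s * (k + 1 + i)) y = some (i : ZMod 3)

/-- the rules for the horizontal direction -/
structure QH (l : ℤ → ℤ → ZMod 3) (q : ℤ → ℤ → Option (ZMod 3)) : Prop where
  m1 : ∀ x y s, Sg s → l x y = 2 → l (x + s) y = 0 → q x y = none ∧ q (x + s) y = some 0
  m2 : ∀ x y s (k : ZMod 3), Sg s → q x y = some k → q x (y + 1) = some k → q x (y - 1) = some k →
    ((k = 0 ∧ l (x - s) y = 2 ∧ l x y = 0) ∨ q (x - s) y = some (k - 1)) → q (x + s) y = some (k + 1)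
  fin : ∀ x y s t (r : ZMod 3), Sg s → Sg t →
    ¬ ∀ k : ℕ, l x (y + t * k) = r ∧ l (x + s) (y + t * k) = r + 1
  bc : ∀ x y s, Sg s → ∃ K : ℕ, ∀ k, K ≤ k → ¬ Run l q x y s k

/-- all rules -/
structure QC (l : ℤ → ℤ → ZMod 3) (b : ℤ → ℤ → Bool) (q : ℤ → ℤ → Option (ZMod 3)) : Prop where
  conf : PConf l b
  hor : QH l q
  ver : QH (fun x y => l y x) fun x y => q y x

/-- the height function -/
structure Hb (H : ℤ → ℤ → ℤ) : Prop where
  lipx : ∀ x y s, Sg s → H (x + s) y ≤ H x y + 1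
  lipy : ∀ x y s, Sg s → H x (y + s) ≤ H x y + 1
  sq : ∀ m, Sq fun x y => H x y ≤ m

theorem Hb.swap {H : ℤ → ℤ → ℤ} (h : Hb H) : Hb fun x y => H y x where
  lipx x y s hs := h.lipy y x s hs
  lipy x y s hs := h.lipx y x s hs
  sq m := (h.sq m).swap

theorem exists_Hb {l : ℤ → ℤ → ZMod 3} {b : ℤ → ℤ → Bool} (h : PConf l b) :
    ∃ H : ℤ → ℤ → ℤ, Hb H ∧ (∀ x y, ((H x y : ℤ) : ZMod 3) = l x y) ∧
      ∀ x y, H (x + 1) y = H x y + dl (l (x + 1) y - l x y) := by
  obtain ⟨H, hl, hx, hy⟩ := exists_lift l h.face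
  have hx' : ∀ x y s, Sg s → H (x + s) y = H x y + dl (l (x + s) y - l x y) := by
    rintro x y s (hs | hs) <;> subst hs
    · exact hx x y
    · have := hx (x + -1) y
      rw [show x + -1 + 1 = x by ring] at this
      rw [this, ← neg_sub (l x y), dl_neg]
      ring
  have hy' : ∀ x y s, Sg s → H x (y + s) = H x y + dl (l x (y + s) - l x y) := by
    rintro x y s (hs | hs) <;> subst hs
    · exact hy x y
    · have := hy x (y + -1)
      rw [show y + -1 + 1 = y by ring] at this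
      rw [this, ← neg_sub (l x y), dl_neg]
      ring
  have hd : ∀ x y s t, Sg s → Sg t →
      H (x + s) (y + t) = H x y + (dl (l (x + s) y - l x y) + dl (l (x + s) (y + t) - l (x + s) y)) := by
    intro x y s t hs ht
    rw [hy' (x + s) y t ht, hx' x y s hs]
    ring
  refine ⟨H, ⟨?_, ?_, ?_⟩, hl, hx⟩
  · intro x y s hs
    rw [hx' x y s hs]
    have := dl_le (l (x + s) y - l x y)
    omega
  · intro x y s hs
    rw [hy' x y s hs]
    have := dl_le (l x (y + s) - l x y)
    omega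
  · intro m
    constructor
    · intro x y s t hs ht a1 a2 a3
      have hF := (h.face' x y s t hs ht).three
      rw [hx' x y s hs] at a2
      rw [hy' x y t ht] at a3
      rw [hd x y s t hs ht]
      omega
    · intro x y s t hs ht a1 a2
      have hF := (h.face' x y s t hs ht).diag
      rw [hd x y s t hs ht] at a2
      rw [hx' x y s hs]
      omega

variable {l : ℤ → ℤ → ZMod 3} {b : ℤ → ℤ → Bool} {q : ℤ → ℤ → Option (ZMod 3)} {H : ℤ → ℤ → ℤ}

/-- an infinite horizontal run gives infinite vertical runs -/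
theorem Hb.turn (h : Hb H) (hl : ∀ x y, ((H x y : ℤ) : ZMod 3) = l x y)
    (hv : QH (fun x y => l y x) fun x y => q y x) {m x y s : ℤ} (hs : Sg s)
    (hr : ∀ i : ℕ, H (x + s * i) y ≤ m) {t : ℤ} (ht : Sg t) (j : ℕ) : H x (y + t * j) ≤ m := by
  have h0 : H x y ≤ m := by simpa using hr 0
  rcases run_or (fun j : ℕ => H x (y + t * j) ≤ m) (by simpa using h0) with h1 | ⟨p, hp, hn⟩
  · exact h1 j
  · exfalso
    have hn' : ¬ H x (y + t * (p + 1)) ≤ m := by simpa using hn
    refine hv.fin (y + t * p) x t s (m : ZMod 3) ht hs fun k => ?_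
    have a1 := (h.sq m).box hs ht (p := k) (fun i _ => hr i) hp p le_rfl k le_rfl
    have a2 := (h.sq m).wall' hs ht (p := k) (fun i _ => hr i) hp hn' k le_rfl
    have a3 := h.lipy (x + s * k) (y + t * p) t ht
    rw [show y + t * (p : ℤ) + t = y + t * (p + 1) by ring] at a3
    have e1 : H (x + s * k) (y + t * p) = m := by omega
    have e2 : H (x + s * k) (y + t * (p + 1)) = m + 1 := by omega
    constructor
    · show l (x + s * k) (y + t * p) = m
      rw [← hl, e1]
    · show l (x + s * k) (y + t * p + t) = m + 1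
      rw [show y + t * (p : ℤ) + t = y + t * (p + 1) by ring, ← hl, e2]
      push_cast
      rfl

/-- an infinite run fills the plane -/
theorem Hb.inf (h : Hb H) (hl : ∀ x y, ((H x y : ℤ) : ZMod 3) = l x y) (hc : QC l b q)
    {m x y s : ℤ} (hs : Sg s) (hr : ∀ i : ℕ, H (x + s * i) y ≤ m) (u v : ℤ) : H u v ≤ m := by
  have h1 : ∀ t, Sg t → ∀ j : ℕ, H x (y + t * j) ≤ m := fun t ht j =>
    h.turn hl hc.ver hs hr ht j
  have h2 : ∀ s, Sg s → ∀ i : ℕ, H (x + s * i) y ≤ m := fun s' hs' i =>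
    h.swap.turn (l := fun x y => l y x) (q := fun x y => q y x) (x := y) (y := x)
      (fun x y => hl y x) hc.hor (Or.inl rfl) (h1 1 (Or.inl rfl)) hs' i
  exact (h.sq m).all h2 h1 u v

theorem QC.swap (hc : QC l b q) : QC (fun x y => l y x) (fun x y => b y x) fun x y => q y x where
  conf :=
    { face := fun x y => (hc.conf.face y x).flip
      px := fun x y e => hc.conf.py y x e
      py := fun x y e => hc.conf.px y x e }
  hor := hc.ver
  ver := hc.hor

/-- runs are finite if some height is larger -/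
theorem Hb.ends (h : Hb H) (hl : ∀ x y, ((H x y : ℤ) : ZMod 3) = l x y) (hc : QC l b q) {m : ℤ}
    (hV : ∃ u v, ¬ H u v ≤ m) {x y : ℤ} (hxy : H x y ≤ m) {s : ℤ} (hs : Sg s) :
    ∃ p : ℕ, (∀ i : ℕ, i ≤ p → H (x + s * i) y ≤ m) ∧ ¬ H (x + s * (p + 1)) y ≤ m := by
  rcases run_or (fun i : ℕ => H (x + s * i) y ≤ m) (by simpa using hxy) with h1 | ⟨p, hp, hn⟩
  · obtain ⟨u, v, huv⟩ := hV
    exact absurd (h.inf hl hc hs h1 u v) huv
  · exact ⟨p, hp, by simpa using hn⟩

/-- the moat over the nearest face -/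
theorem Hb.grow (h : Hb H) (hl : ∀ x y, ((H x y : ℤ) : ZMod 3) = l x y) (hq : QH l q)
    {m x y s : ℤ} (hs : Sg s) {k : ℕ} (hm : (m : ZMod 3) = 2)
    (h1 : ∀ i : ℕ, i ≤ k → H (x + s * i) y ≤ m) (h2 : ¬ H (x + s * (k + 1)) y ≤ m)
    (h3 : ∀ t, Sg t → ∀ j : ℕ, j ≤ k → H x (y + t * j) ≤ m) : Run l q x y s k := by
  have key : ∀ j : ℤ, |j| ≤ k → l (x + s * k) (y + j) = 2 ∧ l (x + s * (k + 1)) (y + j) = 0 := by
    intro j hj
    obtain ⟨t, ht, hjt⟩ := exists_sg j
    have hj' : j.natAbs ≤ k := by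
      rw [Int.abs_eq_natAbs] at hj
      exact_mod_cast hj
    have a1 := (h.sq m).box hs ht h1 (fun j hj => h3 t ht j hj) j.natAbs hj' k le_rfl
    have a2 := (h.sq m).wall hs ht h1 (fun j hj => h3 t ht j hj) h2 j.natAbs hj'
    rw [← hjt] at a1 a2
    have a3 := h.lipx (x + s * k) (y + j) s hs
    rw [show x + s * (k : ℤ) + s = x + s * (k + 1) by ring] at a3
    have e1 : H (x + s * k) (y + j) = m := by omega
    have e2 : H (x + s * (k + 1)) (y + j) = m + 1 := by omega
    constructor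
    · rw [← hl, e1, hm]
    · rw [← hl, e2]
      push_cast
      rw [hm]
      decide
  have hmo : ∀ i : ℕ, i ≤ k → ∀ j : ℤ, |j| ≤ k - i →
      q (x + s * (k + 1 + i)) (y + j) = some (i : ZMod 3) := by
    intro i
    induction i using Nat.strong_induction_on with
    | _ i ih =>
      intro hi j hj
      rcases Nat.eq_zero_or_pos i with h0 | hpos
      · subst h0
        simp only [Nat.cast_zero, add_zero, sub_zero] at hj ⊢
        obtain ⟨k1, k2⟩ := key j hj
        have := hq.m1 (x + s * k) (y + j) s hs k1 (by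
          rw [show x + s * (k : ℤ) + s = x + s * (k + 1) by ring]
          exact k2)
        rw [show x + s * (k : ℤ) + s = x + s * (k + 1) by ring] at this
        exact this.2
      · obtain ⟨i', rfl⟩ : ∃ i', i = i' + 1 := ⟨i - 1, by omega⟩
        have hj2 := abs_le.1 hj
        push_cast at hj2
        have b0 := ih i' (by omega) (by omega) j (by rw [abs_le]; constructor <;> omega)
        have b1 := ih i' (by omega) (by omega) (j + 1) (by rw [abs_le]; constructor <;> omega)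
        have b2 := ih i' (by omega) (by omega) (j - 1) (by rw [abs_le]; constructor <;> omega)
        have b3 := hq.m2 (x + s * (k + 1 + i')) (y + j) s (i' : ZMod 3) hs b0
          (by rw [show y + j + 1 = y + (j + 1) by ring]; exact b1)
          (by rw [show y + j - 1 = y + (j - 1) by ring]; exact b2) (by
            rcases Nat.eq_zero_or_pos i' with h0 | hpos'
            · subst h0
              left
              obtain ⟨k1, k2⟩ := key j (by rw [abs_le]; constructor <;> push_cast at hj2 ⊢ <;> omega)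
              refine ⟨by simp, ?_, ?_⟩
              · rw [show x + s * ((k : ℤ) + 1 + ((0 : ℕ) : ℤ)) - s = x + s * k by push_cast; ring]
                exact k1
              · rw [show x + s * ((k : ℤ) + 1 + ((0 : ℕ) : ℤ)) = x + s * (k + 1) by push_cast; ring]
                exact k2
            · right
              obtain ⟨i'', rfl⟩ : ∃ i'', i' = i'' + 1 := ⟨i' - 1, by omega⟩
              have b4 := ih i'' (by omega) (by omega) j
                (by rw [abs_le]; push_cast at hj2 ⊢; constructor <;> omega)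
              rw [show x + s * ((k : ℤ) + 1 + ((i'' + 1 : ℕ) : ℤ)) - s =
                x + s * (k + 1 + i'') by push_cast; ring, b4]
              push_cast
              rw [add_sub_cancel_right])
        rw [show x + s * ((k : ℤ) + 1 + (i' : ℤ)) + s = x + s * (k + 1 + ((i' + 1 : ℕ) : ℤ)) by
          push_cast; ring] at b3
        rw [b3]
        push_cast
        rfl
  refine ⟨?_, ?_, ?_, fun i hi => ?_⟩
  · have := (key 0 (by simp)).1
    rwa [add_zero] at this
  · have := (key 0 (by simp)).2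
    rwa [add_zero] at this
  · have k1 := (key 0 (by simp)).1
    have k2 := (key 0 (by simp)).2
    rw [add_zero] at k1 k2
    exact (hq.m1 (x + s * k) y s hs k1 (by
      rw [show x + s * (k : ℤ) + s = x + s * (k + 1) by ring]
      exact k2)).1
  · have := hmo i hi 0 (by
      rw [abs_zero]
      omega)
    rwa [add_zero] at this

theorem Hb.ball (h : Hb H) (x y s : ℤ) (hs : Sg s) (j : ℕ) : H (x + s * j) y ≤ H x y + j := by
  induction j with
  | zero => simp
  | succ j ih =>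
    have h1 := h.lipx (x + s * j) y s hs
    rw [show x + s * (j : ℤ) + s = x + s * ((j + 1 : ℕ) : ℤ) by push_cast; ring] at h1
    push_cast at h1 ⊢
    omega

/-- the height is bounded -/
theorem Hb.bounded (h : Hb H) (hl : ∀ x y, ((H x y : ℤ) : ZMod 3) = l x y) (hc : QC l b q) :
    ∃ m, ∀ u v, H u v ≤ m := by
  by_contra hcon
  push Not at hcon
  have hV : ∀ m, ∃ u v, ¬ H u v ≤ m := fun m => by
    obtain ⟨u, v, huv⟩ := hcon m
    exact ⟨u, v, not_le.2 huv⟩
  have p1 : Sg 1 := Or.inl rfl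
  have p2 : Sg (-1) := Or.inr rfl
  obtain ⟨K1, hK1⟩ := hc.hor.bc 0 0 1 p1
  obtain ⟨K2, hK2⟩ := hc.hor.bc 0 0 (-1) p2
  obtain ⟨K3, hK3⟩ := hc.ver.bc 0 0 1 p1
  obtain ⟨K4, hK4⟩ := hc.ver.bc 0 0 (-1) p2
  obtain ⟨K, hK⟩ : ∃ K : ℕ, K = K1 + K2 + K3 + K4 := ⟨_, rfl⟩
  obtain ⟨m, hm⟩ : ∃ m : ℤ, m = 3 * ((H 0 0).natAbs + K : ℕ) + 2 := ⟨_, rfl⟩
  have hm2 : (m : ZMod 3) = 2 := by
    rw [hm]
    push_cast
    have : (3 : ZMod 3) = 0 := by decide
    rw [this, zero_mul, zero_add]
  have hmK : H 0 0 + K ≤ m := by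
    have := le_abs_self (H 0 0)
    have h9 := abs_nonneg (H 0 0)
    rw [hm]
    push_cast
    omega
  have h0 : H 0 0 ≤ m := by omega
  have hlt : ∀ (H' : ℤ → ℤ → ℤ) (_ : Hb H') (_ : H' 0 0 = H 0 0) (s : ℤ) (_ : Sg s) (p : ℕ)
      (_ : ¬ H' (0 + s * (p + 1)) 0 ≤ m), K ≤ p := by
    intro H' hH' e s hs p hp
    have := hH'.ball 0 0 s hs (p + 1)
    push_cast at this
    omega
  have hVs : ∃ u v, ¬ H v u ≤ m := by
    obtain ⟨u, v, huv⟩ := hV m
    exact ⟨v, u, huv⟩
  obtain ⟨a, ha, ha'⟩ := h.ends hl hc (hV m) h0 p1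
  obtain ⟨a2, ha2, ha2'⟩ := h.ends hl hc (hV m) h0 p2
  obtain ⟨a3, ha3, ha3'⟩ := h.swap.ends (x := 0) (y := 0) (fun x y => hl y x) hc.swap hVs h0 p1
  obtain ⟨a4, ha4, ha4'⟩ := h.swap.ends (x := 0) (y := 0) (fun x y => hl y x) hc.swap hVs h0 p2
  have b1 := hlt H h rfl 1 p1 a ha'
  have b2 := hlt H h rfl (-1) p2 a2 ha2'
  have b3 := hlt _ h.swap rfl 1 p1 a3 ha3'
  have b4 := hlt _ h.swap rfl (-1) p2 a4 ha4'
  have hver : ∀ k : ℕ, k ≤ a3 → k ≤ a4 → ∀ t, Sg t → ∀ j : ℕ, j ≤ k → H 0 (0 + t * j) ≤ m := by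
    rintro k c1 c2 t (ht | ht) j hj <;> subst ht
    · exact ha3 j (by omega)
    · exact ha4 j (by omega)
  have hhor : ∀ k : ℕ, k ≤ a → k ≤ a2 → ∀ t, Sg t → ∀ j : ℕ, j ≤ k → H (0 + t * j) 0 ≤ m := by
    rintro k c1 c2 t (ht | ht) j hj <;> subst ht
    · exact ha j (by omega)
    · exact ha2 j (by omega)
  by_cases c1 : a ≤ a2 ∧ a ≤ a3 ∧ a ≤ a4
  · exact hK1 a (by omega) (h.grow hl hc.hor p1 hm2 ha ha' (hver a c1.2.1 c1.2.2))
  by_cases c2 : a2 ≤ a ∧ a2 ≤ a3 ∧ a2 ≤ a4
  · exact hK2 a2 (by omega) (h.grow hl hc.hor p2 hm2 ha2 ha2' (hver a2 c2.2.1 c2.2.2))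
  by_cases c3 : a3 ≤ a ∧ a3 ≤ a2 ∧ a3 ≤ a4
  · exact hK3 a3 (by omega) (h.swap.grow (x := 0) (y := 0) (fun x y => hl y x) hc.ver p1 hm2 ha3
      ha3' (hhor a3 c3.1 c3.2.1))
  · exact hK4 a4 (by omega) (h.swap.grow (x := 0) (y := 0) (fun x y => hl y x) hc.ver p2 hm2 ha4
      ha4' (hhor a4 (by omega) (by omega)))

end BM
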