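import Pool.Agent.Helper20.BM.Pl

/-!
# BM: the phase of the top level
-/

set_option autoImplicit false

namespace BM

open NIC

variable {l : ℤ → ℤ → ZMod 3} {b : ℤ → ℤ → Bool} {q : ℤ → ℤ → Option (ZMod 3)} {H : ℤ → ℤ → ℤ}

/-- the phase is constant along the rows of the top level -/
theorem Hb.row (h : Hb H) {M : ℤ} (hM : ∀ u v, H u v ≤ M)
    (hrx : ∀ x y, H x y ≤ M - 1 → ∃ p : ℕ, (∀ i : ℕ, i ≤ p → H (x + i) y ≤ M - 1) ∧
      ¬ H (x + (p + 1)) y ≤ M - 1)
    (hry : ∀ x y, H x y ≤ M - 1 → ∃ p : ℕ, (∀ i : ℕ, i ≤ p → H x (y + i) ≤ M - 1) ∧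
      ¬ H x (y + (p + 1)) ≤ M - 1)
    {c : ℤ → ℤ → Bool} (hcx : ∀ x y, H (x + 1) y = H x y → c (x + 1) y = c x y)
    (hcy : ∀ x y, H x (y + 1) = H x y → c x (y + 1) = c x y) (n : ℕ) :
    ∀ x y, H x y = M → H (x + n) y = M → c (x + n) y = c x y := by
  have hsg : Sg 1 := Or.inl rfl
  have top : ∀ {u v}, ¬ H u v ≤ M - 1 → H u v = M := fun {u v} hn => by
    have := hM u v
    omega
  have sx : ∀ {x y}, H x y = M → H (x + 1) y = M → c (x + 1) y = c x y := fun h1 h2 =>
    hcx _ _ (h2.trans h1.symm)
  have sy : ∀ {x y}, H x y = M → H x (y + 1) = M → c x (y + 1) = c x y := fun h1 h2 =>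
    hcy _ _ (h2.trans h1.symm)
  induction n using Nat.strong_induction_on with
  | _ n ih =>
    intro x y hx hn
    rcases Nat.eq_zero_or_pos n with h0 | hpos
    · subst h0
      simp
    by_cases h1 : H (x + 1) y = M
    · -- one step
      have e : x + 1 + ((n - 1 : ℕ) : ℤ) = x + n := by
        push_cast [hpos]
        ring
      have := ih (n - 1) (by omega) (x + 1) y h1 (by rw [e]; exact hn)
      rw [e] at this
      rw [this, sx hx h1]
    · have hA1 : H (x + 1) y ≤ M - 1 := by
        have := hM (x + 1) y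
        omega
      -- the box of `x + 1`
      obtain ⟨p, hp, hpn⟩ := hrx _ _ hA1
      obtain ⟨q, hq, hqn⟩ := hry _ _ hA1
      have hsq := h.sq (M - 1)
      have hp' : ∀ i : ℕ, i ≤ p → H (x + 1 + 1 * (i : ℤ)) y ≤ M - 1 := by simpa using hp
      have hq' : ∀ j : ℕ, j ≤ q → H (x + 1) (y + 1 * (j : ℤ)) ≤ M - 1 := by simpa using hq
      -- left column
      have hl : ∀ j : ℕ, j ≤ q → H x (y + j) = M := by
        intro j hj
        have h2 := hsq.wall (x := x + 1) (y := y) (s := -1) (t := 1) (p := 0) (q := q) (Or.inr rfl) hsg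
          (fun i hi => by
            have : i = 0 := by omega
            subst this
            simpa using hA1) hq' (by
              have : x + 1 + -1 * (((0 : ℕ) : ℤ) + 1) = x := by
                push_cast
                ring
              rw [this]
              omega) j hj
        have e : x + 1 + -1 * (((0 : ℕ) : ℤ) + 1) = x := by
          push_cast
          ring
        rw [e, one_mul] at h2
        exact top h2
      -- upper row
      have hu : ∀ i : ℕ, i ≤ p → H (x + 1 + i) (y + (q + 1)) = M := by
        intro i hi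
        have h2 := hsq.wall' hsg hsg hp' hq' (by simpa using hqn) i hi
        rw [one_mul, one_mul] at h2
        exact top h2
      -- right column
      have hr : ∀ j : ℕ, j ≤ q → H (x + 1 + (p + 1)) (y + j) = M := by
        intro j hj
        have h2 := hsq.wall hsg hsg hp' hq' (by simpa using hpn) j hj
        rw [one_mul, one_mul] at h2
        exact top h2
      -- the corners
      have hbox := hsq.box hsg hsg hp' hq' q le_rfl
      have hcl : H x (y + (q + 1)) = M := by
        refine top fun hc => ?_
        have h2 := hbox 0 (Nat.zero_le _)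
        simp only [Nat.cast_zero, mul_zero, add_zero, one_mul] at h2
        have h3 := hsq.diag (x + 1) (y + q) (-1) 1 (Or.inr rfl) hsg h2 (by
          rw [show x + 1 + -1 = x by ring, show y + (q : ℤ) + 1 = y + (q + 1) by ring]
          exact hc)
        rw [show x + 1 + -1 = x by ring] at h3
        have := hl q le_rfl
        omega
      have hcr : H (x + 1 + (p + 1)) (y + (q + 1)) = M := by
        refine top fun hc => ?_
        have h2 := hbox p le_rfl
        simp only [one_mul] at h2
        have h3 := hsq.diag (x + 1 + p) (y + q) 1 1 hsg hsg h2 (by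
          rw [show x + 1 + (p : ℤ) + 1 = x + 1 + (p + 1) by ring,
            show y + (q : ℤ) + 1 = y + (q + 1) by ring]
          exact hc)
        rw [show x + 1 + (p : ℤ) + 1 = x + 1 + (p + 1) by ring] at h3
        have := hr q le_rfl
        omega
      -- the phase along the path
      have c1 : ∀ j : ℕ, j ≤ q → c x (y + j) = c x y := by
        intro j
        induction j with
        | zero =>
          intro _
          simp
        | succ j ihj =>
          intro hj
          have h2 := hl (j + 1) hj
          have h3 := hl j (by omega)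
          rw [show y + ((j + 1 : ℕ) : ℤ) = y + j + 1 by push_cast; ring] at h2 ⊢
          rw [sy h3 h2, ihj (by omega)]
      have c2 : c x (y + (q + 1)) = c x y := by
        have h2 := hcl
        have h3 := hl q le_rfl
        rw [show y + ((q : ℤ) + 1) = y + q + 1 by ring] at h2 ⊢
        rw [sy h3 h2, c1 q le_rfl]
      have c3 : ∀ i : ℕ, i ≤ p → c (x + 1 + i) (y + (q + 1)) = c x y := by
        intro i
        induction i with
        | zero =>
          intro _
          have h2 := hu 0 (Nat.zero_le _)
          simp only [Nat.cast_zero, add_zero] at h2 ⊢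
          rw [sx hcl h2, c2]
        | succ i ihi =>
          intro hi
          have h2 := hu (i + 1) hi
          have h3 := hu i (by omega)
          rw [show x + 1 + ((i + 1 : ℕ) : ℤ) = x + 1 + i + 1 by push_cast; ring] at h2 ⊢
          rw [sx h3 h2, ihi (by omega)]
      have c4 : c (x + 1 + (p + 1)) (y + (q + 1)) = c x y := by
        have h2 := hcr
        have h3 := hu p le_rfl
        rw [show x + 1 + ((p : ℤ) + 1) = x + 1 + p + 1 by ring] at h2 ⊢
        rw [sx h3 h2, c3 p le_rfl]
      have c5 : ∀ j : ℕ, j ≤ q → c (x + 1 + (p + 1)) (y + j) = c (x + 1 + (p + 1)) y := by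
        intro j
        induction j with
        | zero =>
          intro _
          simp
        | succ j ihj =>
          intro hj
          have h2 := hr (j + 1) hj
          have h3 := hr j (by omega)
          rw [show y + ((j + 1 : ℕ) : ℤ) = y + j + 1 by push_cast; ring] at h2 ⊢
          rw [sy h3 h2, ihj (by omega)]
      have c6 : c (x + 1 + (p + 1)) (y + (q + 1)) = c (x + 1 + (p + 1)) y := by
        have h2 := hcr
        have h3 := hr q le_rfl
        rw [show y + ((q : ℤ) + 1) = y + q + 1 by ring] at h2 ⊢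
        rw [sy h3 h2, c5 q le_rfl]
      have c7 : c (x + 1 + (p + 1)) y = c x y := c6.symm.trans c4
      have hr0 : H (x + 1 + (p + 1)) y = M := by simpa using hr 0 (Nat.zero_le _)
      -- `n` is beyond the box
      have hnp : p + 2 ≤ n := by
        by_contra hc
        have h2 := hp (n - 1) (by omega)
        have e : x + 1 + ((n - 1 : ℕ) : ℤ) = x + n := by
          push_cast [hpos]
          ring
        rw [e] at h2
        omega
      have e : x + 1 + ((p : ℤ) + 1) + ((n - (p + 2) : ℕ) : ℤ) = x + n := by
        push_cast [hnp]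
        ring
      have h3 := ih (n - (p + 2)) (by omega) (x + 1 + (p + 1)) y hr0 (by rw [e]; exact hn)
      rw [e] at h3
      rw [h3, c7]

/-- The heights to the right are not larger. -/
def TopR (l : ℤ → ℤ → ZMod 3) (x y : ℤ) : Prop :=
  ∀ p : ℕ, ∑ i ∈ Finset.range p, dl (l (x + i + 1) y - l (x + i) y) ≤ 0

theorem hsum (hx : ∀ x y, H (x + 1) y = H x y + dl (l (x + 1) y - l x y)) (x y : ℤ) (p : ℕ) :
    H (x + p) y = H x y + ∑ i ∈ Finset.range p, dl (l (x + i + 1) y - l (x + i) y) := by
  induction p with
  | zero => simp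
  | succ p ih =>
    rw [Finset.sum_range_succ, ← add_assoc, ← ih, ← hx]
    congr 1
    push_cast
    ring

/-- the phase of the top level is well defined -/
theorem plane_phase (hc : QC l b q) :
    (∃ n : ℕ, TopR l n 0) ∧ ∀ n n' : ℕ, TopR l n 0 → TopR l n' 0 →
      (b n 0 ^^ par n) = (b n' 0 ^^ par n') := by
  obtain ⟨H, hH, hl, hx⟩ := exists_Hb hc.conf
  obtain ⟨m0, hm0⟩ := hH.bounded hl hc
  -- the maximum
  obtain ⟨M, ⟨u, v, huv⟩, hM⟩ : ∃ M : ℤ, (∃ u v, H u v = M) ∧ ∀ u v, H u v ≤ M := by
    obtain ⟨M, hM1, hM2⟩ := Int.exists_greatest_of_bdd (P := fun k => ∃ u v, H u v = k)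
      ⟨m0, by rintro z ⟨u, v, rfl⟩; exact hm0 u v⟩ ⟨H 0 0, 0, 0, rfl⟩
    exact ⟨M, hM1, fun u v => hM2 _ ⟨u, v, rfl⟩⟩
  have hV : ∃ u v, ¬ H u v ≤ M - 1 := ⟨u, v, by omega⟩
  have p1 : Sg 1 := Or.inl rfl
  have hrx : ∀ x y, H x y ≤ M - 1 → ∃ p : ℕ, (∀ i : ℕ, i ≤ p → H (x + i) y ≤ M - 1) ∧
      ¬ H (x + (p + 1)) y ≤ M - 1 := by
    intro x y h1
    obtain ⟨p, h2, h3⟩ := hH.ends hl hc hV h1 p1
    simp only [one_mul] at h2 h3
    exact ⟨p, h2, h3⟩
  have hry : ∀ x y, H x y ≤ M - 1 → ∃ p : ℕ, (∀ i : ℕ, i ≤ p → H x (y + i) ≤ M - 1) ∧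
      ¬ H x (y + (p + 1)) ≤ M - 1 := by
    intro x y h1
    obtain ⟨p, h2, h3⟩ := hH.swap.ends (x := y) (y := x) (fun x y => hl y x) hc.swap
      ⟨v, u, by omega⟩ h1 p1
    simp only [one_mul] at h2 h3
    exact ⟨p, h2, h3⟩
  have leq : ∀ {x y x' y'}, H x y = H x' y' → l x y = l x' y' := fun {x y x' y'} e => by
    rw [← hl, ← hl, e]
  have htop : ∀ x y, TopR l x y ↔ H x y = M := by
    intro x y
    constructor
    · intro h1
      have h2 : ∀ i : ℕ, H (x + 1 * i) y ≤ H x y := fun i => by
        rw [one_mul, hsum hx]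
        have := h1 i
        omega
      have h3 := hH.inf hl hc p1 h2 u v
      have h4 := hM x y
      omega
    · intro h1 p
      have h2 := hM (x + p) y
      rw [hsum hx, h1] at h2
      omega
  refine ⟨?_, ?_⟩
  · by_cases h1 : H 0 0 = M
    · exact ⟨0, (htop _ _).2 h1⟩
    · obtain ⟨p, -, h2⟩ := hrx 0 0 (by
        have := hM 0 0
        omega)
      refine ⟨p + 1, (htop _ _).2 ?_⟩
      have := hM (0 + (p + 1)) 0
      rw [zero_add] at this h2
      push_cast
      omega
  · have hrow := fun n => hH.row hM hrx hry (c := fun x y => b x y ^^ par (x + y))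
      (fun x y e => by
        have h3 := hc.conf.px x y (leq e)
        have h4 : par (x + 1 + y) = !par (x + y) := by
          rw [← par_succ]
          congr 1
          ring
        simp only [h4]
        revert h3
        cases b (x + 1) y <;> cases b x y <;> cases par (x + y) <;> simp)
      (fun x y e => by
        have h3 := hc.conf.py x y (leq e)
        have h4 : par (x + (y + 1)) = !par (x + y) := by
          rw [← par_succ]
          congr 1
          ring
        simp only [h4]
        revert h3
        cases b x (y + 1) <;> cases b x y <;> cases par (x + y) <;> simp) n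
    have key : ∀ n n' : ℕ, n ≤ n' → TopR l n 0 → TopR l n' 0 →
        (b n 0 ^^ par n) = (b n' 0 ^^ par n') := by
      intro n n' hle h1 h2
      rw [htop] at h1 h2
      have e : (n : ℤ) + ((n' - n : ℕ) : ℤ) = n' := by
        push_cast [hle]
        ring
      have := hrow (n' - n) n 0 h1 (by rw [e]; exact h2)
      simp only [e, add_zero] at this
      exact this.symm
    intro n n' h1 h2
    rcases le_total n n' with h | h
    · exact key n n' h h1 h2
    · exact (key n' n h h2 h1).symm

end BM
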