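import Pool.Agent.Helper20.BM.Cf
import Pool.Agent.Helper27.EB.BallIso

/-!
# BM: solutions from wide island systems
-/

set_option autoImplicit false

namespace BM

open EB NI

private theorem isLab_shift {d : ℕ} {X : Type} [MeasurableSpace X] (a : FreeAct d X)
    (I : ℕ → Set X) (x : X) (g : Gd d) (c : Lab) (h : IsLab (Jx a I (a.T g x)) 0 c) :
    IsLab (Jx a I x) g c := by
  obtain ⟨N, m, ⟨h1, h2, h3⟩, h4⟩ := h
  have e1 : g - (m + g) = 0 - m := by abel
  refine ⟨N, m + g, ⟨?_, ?_, ?_⟩, ?_⟩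
  · unfold Jx at h1 ⊢
    rw [a.add]
    exact h1
  · rw [e1]
    exact h2
  · intro N' m' h5 h6
    refine h3 N' (m' - g) ?_ ?_
    · unfold Jx at h5 ⊢
      rw [← a.add, sub_add_cancel]
      exact h5
    · have e2 : 0 - (m' - g) = g - m' := by abel
      rw [e2]
      exact h6
  · rw [e1]
    exact h4

private theorem ms_isLab {d : ℕ} {X : Type} [MeasurableSpace X] (a : FreeAct d X)
    (I : ℕ → Set X) (hI : ∀ N, MeasurableSet (I N)) (g : Gd d) (c : Lab) :
    MeasurableSet {x | IsLab (Jx a I x) g c} := by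
  have h1 : ∀ N m, MeasurableSet {x | Jx a I x N m} := fun N m => a.meas m (hI N)
  have h2 : {x | IsLab (Jx a I x) g c} = ⋃ N, ⋃ m, ((({x | Jx a I x N m} ∩
      {_x | Sh 0 N (g - m)}) ∩ ⋂ N', ⋂ m', ({x | Jx a I x N' m'}ᶜ ∪
        {_x | Sh 0 N' (g - m') → N ≤ N'})) ∩ {_x | c = content N (g - m)}) := by
    ext x
    simp only [Set.mem_ofPred_eq, Set.mem_iUnion, Set.mem_inter_iff, Set.mem_iInter,
      Set.mem_union, Set.mem_compl_iff]
    unfold IsLab First
    refine exists_congr fun N => exists_congr fun m => ?_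
    constructor
    · rintro ⟨⟨q1, q2, q3⟩, q4⟩
      refine ⟨⟨⟨q1, q2⟩, fun N' m' => ?_⟩, q4⟩
      by_cases q : Jx a I x N' m'
      · exact Or.inr (q3 N' m' q)
      · exact Or.inl q
    · rintro ⟨⟨⟨q1, q2⟩, q3⟩, q4⟩
      refine ⟨⟨q1, q2, fun N' m' q => ?_⟩, q4⟩
      rcases q3 N' m' with q5 | q5
      · exact absurd q q5
      · exact q5
  rw [h2]
  refine MeasurableSet.iUnion fun N => MeasurableSet.iUnion fun m => ?_
  refine MeasurableSet.inter (MeasurableSet.inter (MeasurableSet.inter (h1 N m) ?_) ?_) ?_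
  · exact MeasurableSet.const _
  · refine MeasurableSet.iInter fun N' => MeasurableSet.iInter fun m' => ?_
    exact (h1 N' m').compl.union (MeasurableSet.const _)
  · exact MeasurableSet.const _

private theorem isQ_shift {d : ℕ} {X : Type} [MeasurableSpace X] (a : FreeAct d X)
    (I : ℕ → Set X) (x : X) (g : Gd d) (c : Option (ZMod 3)) (h : IsQ (Jx a I (a.T g x)) 0 c) :
    IsQ (Jx a I x) g c := by
  rcases h with ⟨N, m, t, h1, h2, h3⟩ | ⟨h1, h2⟩
  · left
    refine ⟨N, m + g, t, ?_, ?_, h3⟩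
    · unfold Jx at h1 ⊢
      rw [a.add]
      exact h1
    · rw [show g - (m + g) = 0 - m by abel]
      exact h2
  · right
    refine ⟨fun N m t h3 h4 => h1 N (m - g) t ?_ ?_, h2⟩
    · unfold Jx at h3 ⊢
      rw [← a.add, sub_add_cancel]
      exact h3
    · rw [show 0 - (m - g) = g - m by abel]
      exact h4

private theorem ms_isQ {d : ℕ} {X : Type} [MeasurableSpace X] (a : FreeAct d X)
    (I : ℕ → Set X) (hI : ∀ N, MeasurableSet (I N)) (g : Gd d) (c : Option (ZMod 3)) :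
    MeasurableSet {x | IsQ (Jx a I x) g c} := by
  have h1 : ∀ N m, MeasurableSet {x | Jx a I x N m} := fun N m => a.meas m (hI N)
  have h2 : {x | IsQ (Jx a I x) g c} = (⋃ N, ⋃ m, ⋃ t : ℤ, ({x | Jx a I x N m} ∩
      {_x | Moat N (g - m) t ∧ c = some (t : ZMod 3)})) ∪ ((⋂ N, ⋂ m, ⋂ t : ℤ,
        ({x | Jx a I x N m}ᶜ ∪ {_x | ¬ Moat N (g - m) t})) ∩ {_x | c = none}) := by
    ext x
    simp only [Set.mem_ofPred_eq, Set.mem_iUnion, Set.mem_inter_iff, Set.mem_iInter,
      Set.mem_union, Set.mem_compl_iff]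
    unfold IsQ
    refine or_congr Iff.rfl (and_congr ?_ Iff.rfl)
    refine forall_congr' fun N => forall_congr' fun m => forall_congr' fun t => ?_
    tauto
  rw [h2]
  refine MeasurableSet.union ?_ (MeasurableSet.inter ?_ (MeasurableSet.const _))
  · exact MeasurableSet.iUnion fun N => MeasurableSet.iUnion fun m => MeasurableSet.iUnion fun t =>
      (h1 N m).inter (MeasurableSet.const _)
  · exact MeasurableSet.iInter fun N => MeasurableSet.iInter fun m => MeasurableSet.iInter fun t =>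
      (h1 N m).compl.union (MeasurableSet.const _)

/-- a uniquely determined label is a measurable function -/
private theorem uniq_space {X S : Type} [MeasurableSpace X] (C : Set X) (R : X → S → Prop)
    (hR : ∀ c, MeasurableSet {x | R x c}) (h : ∀ x ∈ C, ∃! c, R x c) :
    ∃ F : C → S, Ms F ∧ ∀ x : C, R x.1 (F x) := by
  refine ⟨fun x => (h x.1 x.2).choose, ?_, fun x => (h x.1 x.2).choose_spec.1⟩
  intro c
  have e : {x : C | (h x.1 x.2).choose = c} = Subtype.val ⁻¹' {x | R x c} := by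
    ext x
    simp only [Set.mem_ofPred_eq, Set.mem_preimage]
    constructor
    · intro q
      rw [← q]
      exact (h x.1 x.2).choose_spec.1
    · intro q
      exact ((h x.1 x.2).choose_spec.2 c q).symm
  rw [e]
  exact measurable_subtype_coe (hR c)

theorem labQ_space {d : ℕ} {X : Type} [MeasurableSpace X] (a : FreeAct d X) (I : ℕ → Set X)
    (hI : ∀ N, MeasurableSet (I N)) (C : Set X) (hC : Inv a C) (h : ∀ x ∈ C, WIsl (Jx a I x)) :
    ∃ F : C → LabQ, Ms F ∧ ∀ x : C, ConfQ fun g => F ⟨a.T g x.1, hC g x.1 x.2⟩ := by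
  obtain ⟨F1, hF1, h1⟩ := uniq_space C (fun x c => IsLab (Jx a I x) 0 c)
    (fun c => ms_isLab a I hI 0 c) fun x hx => (h x hx).isl.exists_unique 0
  obtain ⟨F2, hF2, h2⟩ := uniq_space C (fun x c => IsQ (Jx a I x) 0 c)
    (fun c => ms_isQ a I hI 0 c) fun x hx => (h x hx).q_uniq 0
  refine ⟨fun x => (F1 x, F2 x), hF1.pair hF2, fun x => ?_⟩
  refine (h x.1 x.2).confQ _ (fun g => ?_) fun g => ?_
  · exact isLab_shift a I x.1 g _ (h1 ⟨a.T g x.1, hC g x.1 x.2⟩)
  · exact isQ_shift a I x.1 g _ (h2 ⟨a.T g x.1, hC g x.1 x.2⟩)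

theorem solQ_of_isl {d : ℕ} {X : Type} [MeasurableSpace X] (a : FreeAct d X) (I : ℕ → Set X)
    (hI : ∀ N, MeasurableSet (I N)) (C : Set X) (hC : Inv a C) (h : ∀ x ∈ C, WIsl (Jx a I x)) :
    BorelSolOn a lclQ C := by
  obtain ⟨F, hF, hconf⟩ := labQ_space a I hI C hC h
  refine ⟨F, hF, ?_⟩
  rw [sol_iff a lclQ C hC F]
  intro x
  exact allowed_of_confQ _ (hconf x)

end BM
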